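import Pool.Agent.D0H78.LG.Sub
import Pool.Agent.D0H93.MT.Grp
import Pool.Agent.W516.DRDeriv

/-!
# De Rham-Betti endomorphisms of the tensor powers
-/

set_option autoImplicit false
set_option linter.unusedSectionVars false

open Matrix Module

namespace Pool.Agent.D0H78.LG

open Pool.Agent.D0H93.MT

variable {ι : Type} [Fintype ι] [DecidableEq ι]

/-- The endomorphism `c` of the `n`-th tensor power of the Betti realization is defined over `F` in
the de Rham realization; `P` is the period matrix. -/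
def IsDRB (F : Subfield ℂ) (P : Matrix ι ι ℂ) : Family ι ℚ :=
  fun n c => ∀ I J, (tpow n P⁻¹ * bc ℂ c * tpow n P) I J ∈ F

variable {F : Subfield ℂ} {P : Matrix ι ι ℂ}

lemma map_der_rat (D : Derivation F ℂ ℂ) {m m' : Type} (c : Matrix m m' ℚ) :
    (bc ℂ c).map D = 0 := by
  ext i j
  have h1 : (algebraMap ℚ ℂ (c i j)) = algebraMap F ℂ (algebraMap ℚ F (c i j)) := by simp
  change D (algebraMap ℚ ℂ (c i j)) = 0
  rw [h1, D.map_algebraMap]

/-- The logarithmic derivative of the period matrix. -/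
lemma map_der_tpow' (D : Derivation F ℂ ℂ) (n : ℕ) (hP : IsUnit P.det) :
    (tpow n P).map D = tder n (P.map D * P⁻¹) * tpow n P := by
  rw [map_der_tpow D n (Matrix.mul_nonsing_inv _ hP)]
  refine tpow_tder n ?_
  rw [← mul_assoc, Matrix.mul_nonsing_inv _ hP, one_mul, mul_assoc,
    Matrix.nonsing_inv_mul _ hP, mul_one]

/-- The derivative of the de Rham matrix of a rational endomorphism. -/
lemma der_deRham (D : Derivation F ℂ ℂ) (n : ℕ) (hP : IsUnit P.det)
    (c : Matrix (Fin n → ι) (Fin n → ι) ℚ) :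
    tpow n P * (tpow n P⁻¹ * bc ℂ c * tpow n P).map D =
      (bc ℂ c * tder n (P.map D * P⁻¹) - tder n (P.map D * P⁻¹) * bc ℂ c) * tpow n P := by
  set X := tpow n P⁻¹ * bc ℂ c * tpow n P with hX
  have h0 : tpow n P * tpow n P⁻¹ = 1 := by
    rw [← tpow_mul, Matrix.mul_nonsing_inv _ hP, tpow_one]
  have h1 : tpow n P * X = bc ℂ c * tpow n P := by
    rw [hX, ← mul_assoc, ← mul_assoc, h0, one_mul]
  have h2 := congrArg (fun M : Matrix (Fin n → ι) (Fin n → ι) ℂ => M.map D) h1
  simp only [map_der_mul, map_der_rat, map_der_tpow' D n hP] at h2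
  rw [zero_mul, zero_add, mul_assoc, h1] at h2
  rw [sub_mul, mul_assoc, ← h2]
  rw [← mul_assoc (tder n (P.map D * P⁻¹))]
  rw [add_sub_cancel_left]

lemma kills_of_isDRB (D : Derivation F ℂ ℂ) (hP : IsUnit P.det) {n : ℕ}
    {c : Matrix (Fin n → ι) (Fin n → ι) ℚ} (hc : IsDRB F P n c) :
    Kills (P.map D * P⁻¹) (bc ℂ c) := by
  have h1 := der_deRham D n hP c
  have h2 : (tpow n P⁻¹ * bc ℂ c * tpow n P).map D = 0 := by
    ext I J
    rw [Matrix.map_apply, Matrix.zero_apply]
    exact D.map_algebraMap ⟨_, hc I J⟩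
  rw [h2, mul_zero] at h1
  have h0 : tpow n P * tpow n P⁻¹ = 1 := by
    rw [← tpow_mul, Matrix.mul_nonsing_inv _ hP, tpow_one]
  have h3 := congrArg (fun M => M * tpow n P⁻¹) h1
  simp only [zero_mul] at h3
  rw [mul_assoc, h0, mul_one] at h3
  exact (sub_eq_zero.1 h3.symm).symm

/-- **The double annihilator theorem for de Rham-Betti classes.** -/
theorem isDRB_of_killed [IsAlgClosed F] (hP : IsUnit P.det) {n : ℕ}
    {c : Matrix (Fin n → ι) (Fin n → ι) ℚ} (hc : ∀ x ∈ ann (IsDRB F P), Kills x c) :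
    IsDRB F P n c := by
  have h1 : ∀ D : Derivation F ℂ ℂ, Kills (P.map D * P⁻¹) (bc ℂ c) := by
    intro D
    have h2 : P.map D * P⁻¹ ∈ ann (ext ℂ (IsDRB F P)) := by
      rintro m _ ⟨c₀, hc₀, rfl⟩
      exact kills_of_isDRB D hP hc₀
    exact kills_co.2 fun f => hc _ (mem_ann_ext.1 h2 f)
  intro I J
  obtain ⟨a, ha⟩ := Pool.Agent.W516.DR.mem_of_derivation (K := F) (L := ℂ)
    (x := (tpow n P⁻¹ * bc ℂ c * tpow n P) I J) fun D => by
      have h2 := der_deRham D n hP c
      have h3 : bc ℂ c * tder n (P.map D * P⁻¹) - tder n (P.map D * P⁻¹) * bc ℂ c = 0 :=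
        sub_eq_zero.2 (h1 D).symm
      rw [h3, zero_mul] at h2
      have h0 : tpow n P⁻¹ * tpow n P = 1 := by
        rw [← tpow_mul, Matrix.nonsing_inv_mul _ hP, tpow_one]
      have h4 := congrArg (fun M => tpow n P⁻¹ * M) h2
      simp only [mul_zero] at h4
      rw [← mul_assoc, h0, one_mul] at h4
      exact congrFun (congrFun h4 I) J
  rw [← ha]
  exact a.2

end Pool.Agent.D0H78.LG
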