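import Pool.Agent.D0H78.LG.Obj

/-!
# The bound by the rank
-/

set_option autoImplicit false
set_option linter.unusedSectionVars false

open Matrix Module
open scoped Kronecker

namespace Pool.Agent.D0H78.LG

open Pool.Agent.Y133.Half (Cat rk rk_comp rk_add_le trace_idem)

variable {Λ K : Type} [Field K]

lemma one_prod {α β : Type} [DecidableEq α] [DecidableEq β] (a c : α) (b d : β) :
    (1 : Matrix (α × β) (α × β) K) (a, b) (c, d) = (1 : Matrix α α K) a c * (1 : Matrix β β K) b d := by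
  simp only [Matrix.one_apply, Prod.mk.injEq, ite_and, mul_ite, mul_one, mul_zero]
  by_cases h : a = c
  · simp [h]
  · simp [h]

lemma one_symm {α : Type} [DecidableEq α] (a b : α) :
    (1 : Matrix α α K) a b = (1 : Matrix α α K) b a := by
  simp only [Matrix.one_apply, eq_comm]

lemma tn_op (X Y : Ob Λ K) (x : Λ) (a c : X.ty) (b d : Y.ty) :
    (tn X Y).op x (a, b) (c, d) = X.op x a c * (1 : Matrix Y.ty Y.ty K) b d +
      (1 : Matrix X.ty X.ty K) a c * Y.op x b d := rfl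

lemma du_op (X : Ob Λ K) (x : Λ) (a b : X.ty) : (du X).op x a b = -X.op x b a := rfl

/-- The rank of the form on the invariants of `P ⊗ Y ⊗ Y*` given by the operator `g` on `P`. -/
noncomputable def fY (Y P : Ob Λ K) (g : Matrix P.ty P.ty K) : ℕ :=
  rho (tn (tn P Y) (du Y)) ((g ⊗ₖ (1 : Matrix Y.ty Y.ty K)) ⊗ₖ (1 : Matrix Y.ty Y.ty K))

/-- The rank of the trace form on the endomorphisms. -/
noncomputable def aY (Y : Ob Λ K) : ℕ := rho (tn Y (du Y)) 1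

lemma kron_comm {X Y : Ob Λ K} {g : Matrix X.ty X.ty K} {h : Matrix Y.ty Y.ty K}
    (hg : ∀ x, g * X.op x = X.op x * g) (hh : ∀ x, h * Y.op x = Y.op x * h) (x : Λ) :
    (g ⊗ₖ h) * (tn X Y).op x = (tn X Y).op x * (g ⊗ₖ h) := by
  change (g ⊗ₖ h) * (X.op x ⊗ₖ (1 : Matrix Y.ty Y.ty K) + (1 : Matrix X.ty X.ty K) ⊗ₖ Y.op x) =
    (X.op x ⊗ₖ (1 : Matrix Y.ty Y.ty K) + (1 : Matrix X.ty X.ty K) ⊗ₖ Y.op x) * (g ⊗ₖ h)
  rw [mul_add, add_mul, ← Matrix.mul_kronecker_mul, ← Matrix.mul_kronecker_mul,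
    ← Matrix.mul_kronecker_mul, ← Matrix.mul_kronecker_mul, hg, hh]
  simp only [one_mul, mul_one]

lemma du_comm {X : Ob Λ K} {g : Matrix X.ty X.ty K}
    (hg : ∀ x, g * X.op x = X.op x * g) (x : Λ) : gᵀ * (du X).op x = (du X).op x * gᵀ := by
  change gᵀ * (-(X.op x)ᵀ) = (-(X.op x)ᵀ) * gᵀ
  rw [mul_neg, neg_mul, ← Matrix.transpose_mul, ← Matrix.transpose_mul, hg]

lemma rank_idem [CharZero K] {α : Type} [Fintype α] [DecidableEq α] {g : Matrix α α K}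
    (hg : g * g = g) : (g.rank : K) = g.trace := by
  have h := trace_idem (K := K) (f := g.toLin') ((Matrix.toLin'_mul g g).symm.trans (congrArg _ hg))
  rw [Matrix.trace_toLin'_eq] at h
  rw [h]
  rfl

lemma rank_kron [CharZero K] {α β : Type} [Fintype α] [DecidableEq α] [Fintype β] [DecidableEq β]
    {g : Matrix α α K} {h : Matrix β β K} (hg : g * g = g) (hh : h * h = h) :
    (g ⊗ₖ h).rank = g.rank * h.rank := by
  have h1 : (g ⊗ₖ h) * (g ⊗ₖ h) = g ⊗ₖ h := by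
    rw [← Matrix.mul_kronecker_mul, hg, hh]
  have h2 := rank_idem h1
  rw [Matrix.trace_kronecker, ← rank_idem hg, ← rank_idem hh] at h2
  exact_mod_cast h2

lemma rank_one' {α : Type} [Fintype α] [DecidableEq α] :
    (1 : Matrix α α K).rank = Fintype.card α := Matrix.rank_one

lemma fY_trivial [CharZero K] (Y P : Ob Λ K) {g : Matrix P.ty P.ty K} (hg : g * g = g) :
    fY Y P g ≤ g.rank * (Fintype.card Y.ty * Fintype.card Y.ty) := by
  refine (rho_le_rank _ _).trans ?_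
  have h1 : (g ⊗ₖ (1 : Matrix Y.ty Y.ty K)) * (g ⊗ₖ (1 : Matrix Y.ty Y.ty K)) =
      g ⊗ₖ (1 : Matrix Y.ty Y.ty K) := by
    rw [← Matrix.mul_kronecker_mul, hg, mul_one]
  rw [rank_kron h1 (mul_one _), rank_kron hg (mul_one _), rank_one', mul_assoc]

lemma fY_iso {Y P Q : Ob Λ K} (e : P.ty ≃ Q.ty) (he : ∀ x a b, P.op x a b = Q.op x (e a) (e b))
    {g : Matrix P.ty P.ty K} {h : Matrix Q.ty Q.ty K} (hg : ∀ a b, g a b = h (e a) (e b)) :
    fY Y P g = fY Y Q h := by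
  have h1 : ∀ a b, (1 : Matrix P.ty P.ty K) a b = (1 : Matrix Q.ty Q.ty K) (e a) (e b) := by
    intro a b
    simp only [Matrix.one_apply, e.injective.eq_iff]
  refine rho_eq (X := tn (tn P Y) (du Y)) (Y := tn (tn Q Y) (du Y))
    (Equiv.prodCongr (Equiv.prodCongr e (Equiv.refl _)) (Equiv.refl _)) ?_ ?_
  · rintro x ⟨⟨a, b⟩, c⟩ ⟨⟨a', b'⟩, c'⟩
    change (P.op x a a' * (1 : Matrix Y.ty Y.ty K) b b' + (1 : Matrix P.ty P.ty K) a a' *
        Y.op x b b') * (1 : Matrix Y.ty Y.ty K) c c' +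
        (1 : Matrix (P.ty × Y.ty) (P.ty × Y.ty) K) (a, b) (a', b') * -(Y.op x c' c) =
      (Q.op x (e a) (e a') * (1 : Matrix Y.ty Y.ty K) b b' + (1 : Matrix Q.ty Q.ty K) (e a) (e a') *
        Y.op x b b') * (1 : Matrix Y.ty Y.ty K) c c' +
        (1 : Matrix (Q.ty × Y.ty) (Q.ty × Y.ty) K) (e a, b) (e a', b') * -(Y.op x c' c)
    rw [one_prod, one_prod, he, h1]
  · rintro ⟨⟨a, b⟩, c⟩ ⟨⟨a', b'⟩, c'⟩
    change g a a' * (1 : Matrix Y.ty Y.ty K) b b' * (1 : Matrix Y.ty Y.ty K) c c' =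
      h (e a) (e a') * (1 : Matrix Y.ty Y.ty K) b b' * (1 : Matrix Y.ty Y.ty K) c c'
    rw [hg]

theorem csf [CharZero K] (Y P : Ob Λ K) {g : Matrix P.ty P.ty K}
    (hg : ∀ x, g * P.op x = P.op x * g) (hgg : g * g = g) :
    fY Y P g ^ 2 ≤ fY Y (tn P (du P)) (g ⊗ₖ gᵀ) * aY Y := by
  have h1 : (g ⊗ₖ (1 : Matrix Y.ty Y.ty K)) * (g ⊗ₖ (1 : Matrix Y.ty Y.ty K)) =
      g ⊗ₖ (1 : Matrix Y.ty Y.ty K) := by
    rw [← Matrix.mul_kronecker_mul, hgg, mul_one]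
  have h := cs (tn P Y) Y (g := g ⊗ₖ (1 : Matrix Y.ty Y.ty K)) (h := 1)
    (kron_comm hg fun x => by rw [one_mul, mul_one]) h1 (fun x => by rw [one_mul, mul_one])
    (mul_one _)
  rw [Matrix.transpose_one] at h
  have e1 : rho (tn Y (du Y)) ((1 : Matrix Y.ty Y.ty K) ⊗ₖ (1 : Matrix Y.ty Y.ty K)) = aY Y := by
    rw [Matrix.one_kronecker_one]
    rfl
  have e2 : rho (tn (tn P Y) (du (tn P Y))) ((g ⊗ₖ (1 : Matrix Y.ty Y.ty K)) ⊗ₖ
      (g ⊗ₖ (1 : Matrix Y.ty Y.ty K))ᵀ) = fY Y (tn P (du P)) (g ⊗ₖ gᵀ) := by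
    refine rho_eq (X := tn (tn P Y) (du (tn P Y))) (Y := tn (tn (tn P (du P)) Y) (du Y))
      { toFun := fun q => (((q.1.1, q.2.1), q.1.2), q.2.2)
        invFun := fun q => ((q.1.1.1, q.1.2), (q.1.1.2, q.2))
        left_inv := fun _ => rfl
        right_inv := fun _ => rfl } ?_ ?_
    · rintro x ⟨⟨p, y⟩, ⟨p', y'⟩⟩ ⟨⟨q, z⟩, ⟨q', z'⟩⟩
      change (P.op x p q * (1 : Matrix Y.ty Y.ty K) y z + (1 : Matrix P.ty P.ty K) p q *
          Y.op x y z) * (1 : Matrix (P.ty × Y.ty) (P.ty × Y.ty) K) (p', y') (q', z') +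
          (1 : Matrix (P.ty × Y.ty) (P.ty × Y.ty) K) (p, y) (q, z) *
          -(P.op x q' p' * (1 : Matrix Y.ty Y.ty K) z' y' + (1 : Matrix P.ty P.ty K) q' p' *
            Y.op x z' y') =
        ((P.op x p q * (1 : Matrix P.ty P.ty K) p' q' + (1 : Matrix P.ty P.ty K) p q *
          -(P.op x q' p')) * (1 : Matrix Y.ty Y.ty K) y z +
          (1 : Matrix (P.ty × P.ty) (P.ty × P.ty) K) (p, p') (q, q') * Y.op x y z) *
          (1 : Matrix Y.ty Y.ty K) y' z' +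
          (1 : Matrix ((P.ty × P.ty) × Y.ty) ((P.ty × P.ty) × Y.ty) K) ((p, p'), y) ((q, q'), z) *
          -(Y.op x z' y')
      rw [one_prod, one_prod, one_prod, one_prod, one_prod, one_symm q' p', one_symm z' y']
      ring
    · rintro ⟨⟨p, y⟩, ⟨p', y'⟩⟩ ⟨⟨q, z⟩, ⟨q', z'⟩⟩
      change (g p q * (1 : Matrix Y.ty Y.ty K) y z) * (g q' p' * (1 : Matrix Y.ty Y.ty K) z' y') =
        (g p q * g q' p' * (1 : Matrix Y.ty Y.ty K) y z) * (1 : Matrix Y.ty Y.ty K) y' z'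
      rw [one_symm z' y']
      ring
  rw [e1, e2] at h
  exact h

lemma pow_bound [CharZero K] (Y : Ob Λ K) (j : ℕ) : ∀ (P : Ob Λ K) (g : Matrix P.ty P.ty K),
    (∀ x, g * P.op x = P.op x * g) → g * g = g →
    fY Y P g ^ (2 ^ j) * aY Y ≤
      g.rank ^ (2 ^ j) * (Fintype.card Y.ty * Fintype.card Y.ty) * aY Y ^ (2 ^ j) := by
  induction j with
  | zero =>
    intro P g _ hgg
    simp only [pow_zero, pow_one]
    exact Nat.mul_le_mul_right _ (fY_trivial Y P hgg)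
  | succ j ih =>
    intro P g hg hgg
    have h1 := csf Y P hg hgg
    have ht : gᵀ * gᵀ = gᵀ := by rw [← Matrix.transpose_mul, hgg]
    have h2 := ih (tn P (du P)) (g ⊗ₖ gᵀ) (kron_comm hg (du_comm hg)) (by
      rw [← Matrix.mul_kronecker_mul, hgg, ht])
    rw [rank_kron hgg ht, Matrix.rank_transpose] at h2
    set α := aY Y
    set D := Fintype.card Y.ty * Fintype.card Y.ty
    set ρ := fY Y P g
    set ρ' := fY Y (tn P (du P)) (g ⊗ₖ gᵀ)
    set m := g.rank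
    calc ρ ^ (2 ^ (j + 1)) * α = (ρ ^ 2) ^ (2 ^ j) * α := by rw [← pow_mul, pow_succ, mul_comm 2]
      _ ≤ (ρ' * α) ^ (2 ^ j) * α := Nat.mul_le_mul_right _ (Nat.pow_le_pow_left h1 _)
      _ = (ρ' ^ (2 ^ j) * α) * α ^ (2 ^ j) := by rw [mul_pow]; ring
      _ ≤ ((m * m) ^ (2 ^ j) * D * α ^ (2 ^ j)) * α ^ (2 ^ j) := Nat.mul_le_mul_right _ h2
      _ = m ^ (2 ^ (j + 1)) * D * α ^ (2 ^ (j + 1)) := by
        rw [pow_succ 2 j, pow_mul, pow_mul]
        ring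

lemma le_of_pow {r m D : ℕ} (h : ∀ j : ℕ, r ^ (2 ^ j) ≤ m ^ (2 ^ j) * D) : r ≤ m := by
  by_contra hlt
  push Not at hlt
  rcases Nat.eq_zero_or_pos m with hm | hm
  · subst hm
    have := h 0
    simp at this
    omega
  · have hm' : (0 : ℝ) < m := by exact_mod_cast hm
    have h1 : ∀ j : ℕ, 1 + (2 ^ j : ℕ) * (1 / (m : ℝ)) ≤ D := by
      intro j
      have h2 : 1 + ((2 ^ j : ℕ) : ℝ) * (1 / (m : ℝ)) ≤ (1 + 1 / (m : ℝ)) ^ (2 ^ j) := by
        apply one_add_mul_le_pow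
        have : (0 : ℝ) < 1 / m := by positivity
        linarith
      have h3 : (1 + 1 / (m : ℝ)) ^ (2 ^ j) ≤ D := by
        have h4 : ((m : ℝ) + 1) ^ (2 ^ j) ≤ (m : ℝ) ^ (2 ^ j) * D := by
          have h5 : ((m + 1 : ℕ) : ℝ) ^ (2 ^ j) ≤ (r : ℝ) ^ (2 ^ j) := by
            apply pow_le_pow_left₀ (by positivity)
            exact_mod_cast hlt
          have h6 : ((r ^ (2 ^ j) : ℕ) : ℝ) ≤ ((m ^ (2 ^ j) * D : ℕ) : ℝ) := by
            exact_mod_cast h j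
          push_cast at h5 h6
          exact h5.trans h6
        have h7 : (1 + 1 / (m : ℝ)) = ((m : ℝ) + 1) / m := by field_simp
        rw [h7, div_pow, div_le_iff₀ (by positivity)]
        linarith
      exact h2.trans h3
    obtain ⟨j, hj⟩ := pow_unbounded_of_one_lt ((D : ℝ) * m) (one_lt_two)
    have h8 := h1 j
    have h9 : (D : ℝ) < ((2 ^ j : ℕ) : ℝ) * (1 / (m : ℝ)) := by
      rw [mul_one_div, lt_div_iff₀ hm']
      push_cast
      exact hj
    linarith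

/-- **The bound by the rank.** -/
theorem fY_le [CharZero K] (Y P : Ob Λ K) {g : Matrix P.ty P.ty K}
    (hg : ∀ x, g * P.op x = P.op x * g) (hgg : g * g = g) : fY Y P g ≤ g.rank * aY Y := by
  rcases Nat.eq_zero_or_pos (aY Y) with h0 | h0
  · have h1 := csf Y P hg hgg
    rw [h0, mul_zero] at h1
    rw [h0, mul_zero]
    have : fY Y P g ^ 2 = 0 := Nat.le_zero.1 h1
    exact (pow_eq_zero_iff two_ne_zero).1 this |>.le
  · apply le_of_pow (D := Fintype.card Y.ty * Fintype.card Y.ty)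
    intro j
    have h := pow_bound Y j P g hg hgg
    calc fY Y P g ^ (2 ^ j) ≤ fY Y P g ^ (2 ^ j) * aY Y := Nat.le_mul_of_pos_right _ h0
      _ ≤ _ := h
      _ = (g.rank * aY Y) ^ (2 ^ j) * (Fintype.card Y.ty * Fintype.card Y.ty) := by
        rw [mul_pow]; ring

lemma fY_add_le (Y P : Ob Λ K) (g h : Matrix P.ty P.ty K) :
    fY Y P (g + h) ≤ fY Y P g + fY Y P h := by
  have e : ((g + h) ⊗ₖ (1 : Matrix Y.ty Y.ty K)) ⊗ₖ (1 : Matrix Y.ty Y.ty K) =
      (g ⊗ₖ (1 : Matrix Y.ty Y.ty K)) ⊗ₖ (1 : Matrix Y.ty Y.ty K) +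
      (h ⊗ₖ (1 : Matrix Y.ty Y.ty K)) ⊗ₖ (1 : Matrix Y.ty Y.ty K) := by
    rw [Matrix.add_kronecker, Matrix.add_kronecker]
  rw [fY, e]
  exact rho_add_le _ _ _

/-- A nonzero idempotent contributes almost its share. -/
theorem fY_lower [CharZero K] (Y P : Ob Λ K) {g : Matrix P.ty P.ty K}
    (hg : ∀ x, g * P.op x = P.op x * g) (hgg : g * g = g) (h0 : g ≠ 0) :
    fY Y P 1 + aY Y ≤ fY Y P g + Fintype.card P.ty * aY Y := by
  have h1 := fY_add_le Y P g (1 - g)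
  rw [add_sub_cancel] at h1
  have hG : (1 - g) * (1 - g) = 1 - g := by
    rw [mul_sub, sub_mul, sub_mul, hgg]
    simp
  have h2 := fY_le Y P (g := 1 - g) (fun x => by
    rw [sub_mul, mul_sub, hg, one_mul, mul_one]) hG
  have h3 : (1 - g).rank + g.rank = Fintype.card P.ty := by
    have e1 := rank_idem hG
    have e2 := rank_idem hgg
    have e3 : (((1 - g).rank + g.rank : ℕ) : K) = ((Fintype.card P.ty : ℕ) : K) := by
      rw [Nat.cast_add, e1, e2, Matrix.trace_sub, Matrix.trace_one]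
      ring
    exact_mod_cast e3
  have h4 : 1 ≤ g.rank := by
    rw [Nat.one_le_iff_ne_zero]
    intro h
    apply h0
    have h5 : g.toLin' = 0 := LinearMap.range_eq_bot.1 (Submodule.finrank_eq_zero.1 h)
    exact (Matrix.toLin').map_eq_zero_iff.1 h5
  calc fY Y P 1 + aY Y ≤ fY Y P g + (1 - g).rank * aY Y + g.rank * aY Y := by
        have : aY Y ≤ g.rank * aY Y := Nat.le_mul_of_pos_left _ h4
        omega
    _ = fY Y P g + Fintype.card P.ty * aY Y := by rw [← h3]; ring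

end Pool.Agent.D0H78.LG
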