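import Pool.Agent.D0H78.LG.Orbit

/-!
# The chain generated by the powers of a vector
-/

set_option autoImplicit false
set_option linter.unusedSectionVars false

open Matrix Module PowerSeries
open scoped Kronecker

namespace Pool.Agent.D0H78.LG

open Pool.Agent.D0H93.MT (tder)

variable {ι : Type} [Fintype ι] [DecidableEq ι] {Λ K : Type} [Field K]

variable (φ : Λ → Matrix ι ι K) (q : ℕ)

/-- The powers of the module of the endomorphisms of the `q`-th tensor power. -/
abbrev O : ℕ → Ob Λ K
  | 0 => U Λ K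
  | k + 1 => tn (O k) (E φ q)

/-- The powers of a vector. -/
def pwr (v : (E φ q).ty → K) : ∀ k, (O φ q k).ty → K
  | 0 => fun _ => 1
  | k + 1 => fun p => pwr v k p.1 * v p.2

lemma exists_inc_step (i : ℕ) : ∃ e : Matrix (O φ q (i + 1)).ty (O φ q i).ty K,
    (∀ x, e * (O φ q i).op x = (O φ q (i + 1)).op x * e) ∧ (Nonempty (Fin q → ι) →
      ∀ v, e *ᵥ v = 0 → v = 0) := by
  have hI : ∀ (x : Λ) (s t : Fin q → ι), ∑ p : (Fin q → ι) × (Fin q → ι),
      (E φ q).op x (s, t) p * (1 : Matrix (Fin q → ι) (Fin q → ι) K) p.1 p.2 = 0 := by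
    intro x s t
    rw [Fintype.sum_prod_type]
    change ∑ s', ∑ t', (tder q (φ x) s s' * (1 : Matrix (Fin q → ι) _ K) t t' +
      (1 : Matrix (Fin q → ι) _ K) s s' * -(tder q (φ x) t' t)) *
        (1 : Matrix (Fin q → ι) (Fin q → ι) K) s' t' = 0
    have h1 : ∀ s', ∑ t', (tder q (φ x) s s' * (1 : Matrix (Fin q → ι) _ K) t t' +
      (1 : Matrix (Fin q → ι) _ K) s s' * -(tder q (φ x) t' t)) *
        (1 : Matrix (Fin q → ι) (Fin q → ι) K) s' t' =
        tder q (φ x) s s' * (1 : Matrix (Fin q → ι) _ K) t s' +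
        (1 : Matrix (Fin q → ι) _ K) s s' * -(tder q (φ x) s' t) := by
      intro s'
      rw [Finset.sum_eq_single s']
      · rw [Matrix.one_apply_eq, mul_one]
      · intro t' _ ht'
        rw [Matrix.one_apply_ne ht'.symm, mul_zero]
      · intro h; exact absurd (Finset.mem_univ _) h
    simp only [h1]
    rw [Finset.sum_add_distrib, Finset.sum_eq_single t, Finset.sum_eq_single s,
      Matrix.one_apply_eq, Matrix.one_apply_eq]
    · ring
    · intro s' _ hs'
      rw [Matrix.one_apply_ne hs'.symm, zero_mul]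
    · intro h; exact absurd (Finset.mem_univ _) h
    · intro s' _ hs'
      rw [Matrix.one_apply_ne hs'.symm, mul_zero]
    · intro h; exact absurd (Finset.mem_univ _) h
  refine ⟨Matrix.of fun (p : (O φ q i).ty × ((Fin q → ι) × (Fin q → ι))) (r : (O φ q i).ty) =>
    (1 : Matrix (O φ q i).ty (O φ q i).ty K) p.1 r *
      (1 : Matrix (Fin q → ι) (Fin q → ι) K) p.2.1 p.2.2, ?_, ?_⟩
  · intro x
    ext ⟨p, ⟨s, t⟩⟩ r
    rw [Matrix.mul_apply, Matrix.mul_apply, Fintype.sum_prod_type]
    change ∑ j, ((1 : Matrix (O φ q i).ty (O φ q i).ty K) p j *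
        (1 : Matrix (Fin q → ι) (Fin q → ι) K) s t) * (O φ q i).op x j r =
      ∑ p', ∑ y : (Fin q → ι) × (Fin q → ι), ((O φ q i).op x p p' *
        (1 : Matrix ((Fin q → ι) × (Fin q → ι)) _ K) (s, t) y +
        (1 : Matrix (O φ q i).ty (O φ q i).ty K) p p' * (E φ q).op x (s, t) y) *
        ((1 : Matrix (O φ q i).ty (O φ q i).ty K) p' r *
          (1 : Matrix (Fin q → ι) (Fin q → ι) K) y.1 y.2)
    have h1 : ∑ j, ((1 : Matrix (O φ q i).ty (O φ q i).ty K) p j *
        (1 : Matrix (Fin q → ι) (Fin q → ι) K) s t) * (O φ q i).op x j r =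
        (1 : Matrix (Fin q → ι) (Fin q → ι) K) s t * (O φ q i).op x p r := by
      rw [Finset.sum_eq_single p]
      · rw [Matrix.one_apply_eq, one_mul]
      · intro j _ hj
        rw [Matrix.one_apply_ne hj.symm, zero_mul, zero_mul]
      · intro h; exact absurd (Finset.mem_univ _) h
    have h2 : ∀ p', ∑ y : (Fin q → ι) × (Fin q → ι), ((O φ q i).op x p p' *
        (1 : Matrix ((Fin q → ι) × (Fin q → ι)) _ K) (s, t) y +
        (1 : Matrix (O φ q i).ty (O φ q i).ty K) p p' * (E φ q).op x (s, t) y) *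
        ((1 : Matrix (O φ q i).ty (O φ q i).ty K) p' r *
          (1 : Matrix (Fin q → ι) (Fin q → ι) K) y.1 y.2) =
        (O φ q i).op x p p' * (1 : Matrix (O φ q i).ty (O φ q i).ty K) p' r *
          (1 : Matrix (Fin q → ι) (Fin q → ι) K) s t := by
      intro p'
      have h3 : ∀ y : (Fin q → ι) × (Fin q → ι), ((O φ q i).op x p p' *
        (1 : Matrix ((Fin q → ι) × (Fin q → ι)) _ K) (s, t) y +
        (1 : Matrix (O φ q i).ty (O φ q i).ty K) p p' * (E φ q).op x (s, t) y) *
        ((1 : Matrix (O φ q i).ty (O φ q i).ty K) p' r *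
          (1 : Matrix (Fin q → ι) (Fin q → ι) K) y.1 y.2) =
          (O φ q i).op x p p' * (1 : Matrix (O φ q i).ty (O φ q i).ty K) p' r *
          ((1 : Matrix ((Fin q → ι) × (Fin q → ι)) _ K) (s, t) y *
          (1 : Matrix (Fin q → ι) (Fin q → ι) K) y.1 y.2) +
          (1 : Matrix (O φ q i).ty (O φ q i).ty K) p p' *
          (1 : Matrix (O φ q i).ty (O φ q i).ty K) p' r * ((E φ q).op x (s, t) y *
          (1 : Matrix (Fin q → ι) (Fin q → ι) K) y.1 y.2) := fun y => by ring
      rw [Finset.sum_congr rfl fun y _ => h3 y, Finset.sum_add_distrib, ← Finset.mul_sum,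
        ← Finset.mul_sum, hI, mul_zero, add_zero, Finset.sum_eq_single (s, t)]
      · rw [Matrix.one_apply_eq, one_mul]
      · intro y _ hy
        rw [Matrix.one_apply_ne hy.symm, zero_mul]
      · intro h; exact absurd (Finset.mem_univ _) h
    rw [h1, Finset.sum_congr rfl fun p' _ => h2 p', Finset.sum_eq_single r]
    · rw [Matrix.one_apply_eq]
      ring
    · intro j _ hj
      rw [Matrix.one_apply_ne hj, mul_zero, zero_mul]
    · intro h; exact absurd (Finset.mem_univ _) h
  · rintro ⟨s⟩ v hv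
    funext r
    have h := congrFun hv (r, (s, s))
    rw [Matrix.mulVec, dotProduct] at h
    change ∑ j, ((1 : Matrix (O φ q i).ty (O φ q i).ty K) r j *
        (1 : Matrix (Fin q → ι) (Fin q → ι) K) s s) * v j = 0 at h
    rw [Finset.sum_eq_single r] at h
    · rwa [Matrix.one_apply_eq, Matrix.one_apply_eq, one_mul, one_mul] at h
    · intro j _ hj
      rw [Matrix.one_apply_ne hj.symm, zero_mul, zero_mul]
    · intro h; exact absurd (Finset.mem_univ _) h

/-- The embedding of a power in a higher one. -/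
lemma exists_inc (hne : Nonempty (Fin q → ι)) {i k : ℕ} (hik : i ≤ k) :
    ∃ e : Matrix (O φ q k).ty (O φ q i).ty K,
    (∀ x, e * (O φ q i).op x = (O φ q k).op x * e) ∧ ∀ v, e *ᵥ v = 0 → v = 0 := by
  induction k, hik using Nat.le_induction with
  | base => exact ⟨1, fun x => by rw [one_mul, mul_one], fun v hv => by rwa [Matrix.one_mulVec] at hv⟩
  | succ k _ ih =>
    obtain ⟨e, he, hi⟩ := ih
    obtain ⟨e', he', hi'⟩ := exists_inc_step φ q k (K := K)
    refine ⟨e' * e, fun x => ?_, fun v hv => hi v (hi' hne _ ?_)⟩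
    · rw [Matrix.mul_assoc, he, ← Matrix.mul_assoc, he', Matrix.mul_assoc]
    · rwa [Matrix.mulVec_mulVec]

variable (v : (E φ q).ty → K)

/-- The subspaces generated by the powers with exponent less than `i`. -/
def chn (k i : ℕ) : Submodule K ((O φ q k).ty → K) :=
  Submodule.span K {u | ∃ j < i, ∃ f : Matrix (O φ q k).ty (O φ q j).ty K,
    (∀ x, f * (O φ q j).op x = (O φ q k).op x * f) ∧ f *ᵥ pwr φ q v j = u}

lemma chn_mono (k i : ℕ) : chn φ q v k i ≤ chn φ q v k (i + 1) :=
  Submodule.span_mono fun _ ⟨j, hj, h⟩ => ⟨j, Nat.lt_succ_of_lt hj, h⟩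

/-- The span of the entries of the exponential series. -/
noncomputable def ents (x : Λ) (i : ℕ) : Submodule K K⟦X⟧ :=
  Submodule.span K {f | ∃ j < i, ∃ a, Ex (O φ q j) x (pwr φ q v j) a = f}

lemma Ex_mem_of_chn {x : Λ} {k i : ℕ} {u : (O φ q k).ty → K} (hu : u ∈ chn φ q v k i)
    (b : (O φ q k).ty) : Ex (O φ q k) x u b ∈ ents φ q v x i := by
  induction hu using Submodule.span_induction with
  | mem u hu =>
    obtain ⟨j, hj, f, hf, rfl⟩ := hu
    rw [Ex_map (hf x)]
    exact Submodule.sum_mem _ fun a _ => Submodule.smul_mem _ _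
      (Submodule.subset_span ⟨j, hj, a, rfl⟩)
  | zero => rw [Ex_zero]; exact Submodule.zero_mem _
  | add u w _ _ hu hw => rw [Ex_add]; exact Submodule.add_mem _ hu hw
  | smul c u _ hu => rw [Ex_smul]; exact Submodule.smul_mem _ _ hu

variable [CharZero K]

lemma Ex_unit (x : Λ) (a : (O φ q 0).ty) : Ex (O φ q 0) x (pwr φ q v 0) a = 1 := by
  ext s
  rw [coeff_Ex, PowerSeries.coeff_one]
  have h : (O φ q 0).op x = 0 := rfl
  rw [h]
  rcases Nat.eq_zero_or_pos s with rfl | hs
  · rw [pow_zero, Matrix.one_mulVec]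
    simp [pwr]
  · rw [zero_pow hs.ne', Matrix.zero_mulVec, if_neg hs.ne', Pi.zero_apply, zero_div]

/-- **The chain is strictly increasing.** -/
theorem chn_lt (hne : Nonempty (Fin q → ι)) {x : Λ} (hv : (E φ q).op x *ᵥ v ≠ 0) {k i : ℕ}
    (hik : i ≤ k) : chn φ q v k i < chn φ q v k (i + 1) := by
  refine lt_of_le_of_ne (chn_mono φ q v k i) fun heq => ?_
  obtain ⟨e, he, hi⟩ := exists_inc φ q (K := K) hne hik
  have h1 : e *ᵥ pwr φ q v i ∈ chn φ q v k i := by
    rw [heq]
    exact Submodule.subset_span ⟨i, Nat.lt_succ_self i, e, he, rfl⟩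
  -- the entries of degree `i` are in the span of the entries of lower degree
  have h2 : ∀ a, Ex (O φ q i) x (pwr φ q v i) a ∈ ents φ q v x i := by
    have hinj : Function.Injective e.toLin' := by
      rw [← LinearMap.ker_eq_bot, LinearMap.ker_eq_bot']
      intro u hu
      exact hi u (by rwa [Matrix.toLin'_apply] at hu)
    obtain ⟨L, hL⟩ := LinearMap.exists_leftInverse_of_injective _ (LinearMap.ker_eq_bot.2 hinj)
    intro a
    have h3 : ∀ b, Ex (O φ q k) x (e *ᵥ pwr φ q v i) b ∈ ents φ q v x i :=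
      fun b => Ex_mem_of_chn φ q v h1 b
    have h4 : Ex (O φ q i) x (pwr φ q v i) a = ∑ b, (LinearMap.toMatrix' L) a b •
        Ex (O φ q k) x (e *ᵥ pwr φ q v i) b := by
      have h5 : (LinearMap.toMatrix' L) * e = 1 := by
        apply Matrix.toLin'.injective
        rw [Matrix.toLin'_mul, Matrix.toLin'_toMatrix', hL, Matrix.toLin'_one]
      have h6 : ∀ c, ∑ b, (LinearMap.toMatrix' L) a b * e b c =
          (1 : Matrix (O φ q i).ty (O φ q i).ty K) a c := by
        intro c
        rw [← h5, Matrix.mul_apply]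
      simp only [Ex_map (he x), Finset.smul_sum, smul_smul]
      rw [Finset.sum_comm]
      simp only [← Finset.sum_smul, h6]
      rw [Finset.sum_eq_single a]
      · rw [Matrix.one_apply_eq, one_smul]
      · intro c _ hc
        rw [Matrix.one_apply_ne hc.symm, zero_smul]
      · intro h; exact absurd (Finset.mem_univ _) h
    rw [h4]
    exact Submodule.sum_mem _ fun b _ => Submodule.smul_mem _ _ (h3 b)
  have h3 : ents φ q v x (i + 1) ≤ ents φ q v x i := by
    refine Submodule.span_le.2 ?_
    rintro _ ⟨j, hj, a, rfl⟩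
    rcases Nat.lt_succ_iff_lt_or_eq.1 hj with hj | rfl
    · exact Submodule.subset_span ⟨j, hj, a, rfl⟩
    · exact h2 a
  -- `i` is positive
  rcases Nat.eq_zero_or_pos i with rfl | hi0
  · have h4 : ents φ q v x 0 = ⊥ := by
      rw [eq_bot_iff]
      refine Submodule.span_le.2 ?_
      rintro _ ⟨j, hj, _⟩
      exact absurd hj (Nat.not_lt_zero j)
    have h5 := h2 ()
    rw [h4, Ex_unit, Submodule.mem_bot] at h5
    exact one_ne_zero h5
  have hone : (1 : K⟦X⟧) ∈ ents φ q v x i :=
    Submodule.subset_span ⟨0, hi0, (), Ex_unit φ q v x ()⟩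
  -- stability under multiplication
  have hmul : ∀ b, ∀ f ∈ ents φ q v x i, f * Ex (E φ q) x v b ∈ ents φ q v x i := by
    intro b f hf
    apply h3
    induction hf using Submodule.span_induction with
    | mem f hf =>
      obtain ⟨j, hj, a, rfl⟩ := hf
      refine Submodule.subset_span ⟨j + 1, Nat.succ_lt_succ hj, (a, b), ?_⟩
      exact Ex_tn (O φ q j) (E φ q) x (pwr φ q v j) v a b
    | zero => rw [zero_mul]; exact Submodule.zero_mem _
    | add f g _ _ hf hg => rw [add_mul]; exact Submodule.add_mem _ hf hg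
    | smul c f _ hf => rw [smul_mul_assoc]; exact Submodule.smul_mem _ _ hf
  have hfg : (ents φ q v x i).FG := by
    refine Submodule.fg_span ?_
    have : {f | ∃ j < i, ∃ a, Ex (O φ q j) x (pwr φ q v j) a = f} =
        ⋃ j ∈ Finset.range i, Set.range (Ex (O φ q j) x (pwr φ q v j)) := by
      ext f
      simp
    rw [this]
    exact Set.Finite.biUnion (Finset.finite_toSet _) fun j _ => Set.finite_range _
  have hint : ∀ b, IsIntegral K (Ex (E φ q) x v b) := by
    intro b
    set μ := Ex (E φ q) x v b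
    have h4 : Subalgebra.toSubmodule (Algebra.adjoin K {μ}) ≤ ents φ q v x i := by
      intro f hf
      rw [Subalgebra.mem_toSubmodule, Algebra.adjoin_singleton_eq_range_aeval] at hf
      obtain ⟨p, rfl⟩ := hf
      induction p using Polynomial.induction_on' with
      | add p r hp hr => rw [RingHom.map_add]; exact Submodule.add_mem _ hp hr
      | monomial n c =>
        change Polynomial.aeval μ _ ∈ _
        rw [Polynomial.aeval_monomial]
        have h5 : ∀ n : ℕ, μ ^ n ∈ ents φ q v x i := by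
          intro n
          induction n with
          | zero => rw [pow_zero]; exact hone
          | succ n ih => rw [pow_succ]; exact hmul b _ ih
        rw [← Algebra.smul_def]
        exact Submodule.smul_mem _ _ (h5 n)
    have h5 : (Subalgebra.toSubmodule (Algebra.adjoin K {μ})).FG := by
      have : Module.Finite K (ents φ q v x i) := Module.Finite.iff_fg.2 hfg
      have h6 : Module.Finite K (Subalgebra.toSubmodule (Algebra.adjoin K {μ})) :=
        Submodule.finiteDimensional_of_le h4
      exact Module.Finite.iff_fg.1 h6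
    exact IsIntegral.of_mem_of_fg _ h5 _ (Algebra.self_mem_adjoin_singleton K μ)
  apply hv
  funext b
  have h4 := coeff_one_of_integral (hint b)
  rw [coeff_Ex, pow_one, Nat.factorial_one, Nat.cast_one, div_one] at h4
  exact h4

end Pool.Agent.D0H78.LG
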