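import Pool.Agent.D0H78.LG.Pow

/-!
# Growth
-/

set_option autoImplicit false
set_option linter.unusedSectionVars false

open Matrix Module
open scoped Kronecker

namespace Pool.Agent.D0H78.LG

open Pool.Agent.Y133.Half (Cat rk rk_comp rk_add_le trace_idem span_perm)
open Pool.Agent.D0H93.MT (tder)

variable {ι : Type} [Fintype ι] [DecidableEq ι] {Λ K : Type} [Field K]

variable (φ : Λ → Matrix ι ι K)

/-- The endomorphisms of the tensor power which commute with the operators. -/
def cm (n : ℕ) : Submodule K (Matrix (Fin n → ι) (Fin n → ι) K) where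
  carrier := {c | ∀ x, tder n (φ x) * c = c * tder n (φ x)}
  zero_mem' := fun x => by rw [mul_zero, zero_mul]
  add_mem' := fun {a b} ha hb x => by rw [mul_add, add_mul, ha, hb]
  smul_mem' := fun r a ha x => by rw [mul_smul_comm, smul_mul_assoc, ha]

lemma mem_cm {n : ℕ} {c : Matrix (Fin n → ι) (Fin n → ι) K} :
    c ∈ cm φ n ↔ ∀ x, tder n (φ x) * c = c * tder n (φ x) := Iff.rfl

/-- The trace form on the endomorphisms of the tensor powers is nondegenerate. -/
def Nd (n : ℕ) : Prop := ∀ c ∈ cm φ n, (∀ d ∈ cm φ n, (c * d).trace = 0) → c = 0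

/-- The endomorphisms as invariants. -/
def toInv (n : ℕ) : cm φ n ≃ₗ[K] Inv (E φ n) where
  toFun c := ⟨fun p => (c : Matrix (Fin n → ι) (Fin n → ι) K) p.1 p.2, inv_tn_du.2 c.2⟩
  invFun v := ⟨Matrix.of fun a b => (v : (Fin n → ι) × (Fin n → ι) → K) (a, b), inv_tn_du.1 v.2⟩
  left_inv _ := rfl
  right_inv _ := rfl
  map_add' _ _ := rfl
  map_smul' _ _ := rfl

lemma a_eq {n : ℕ} (h : Nd φ n) : a φ n = finrank K (cm φ n) := by
  rw [(toInv φ n).finrank_eq]
  change finrank K (LinearMap.range (frm (E φ n) 1)) = _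
  refine LinearMap.finrank_range_of_inj ?_
  rw [← LinearMap.ker_eq_bot, LinearMap.ker_eq_bot']
  intro v hv
  obtain ⟨c, rfl⟩ := (toInv φ n).surjective v
  have hc : (c : Matrix (Fin n → ι) (Fin n → ι) K) = 0 := by
    refine h _ c.2 fun d hd => ?_
    have hw : (fun p : (Fin n → ι) × (Fin n → ι) => d p.2 p.1) ∈ Inv (du (E φ n)) :=
      inv_du_tn.2 fun x => (hd x).symm
    have h1 := congrArg (fun f : Inv (du (E φ n)) →ₗ[K] K => f ⟨_, hw⟩) hv
    change (fun p : (Fin n → ι) × (Fin n → ι) => d p.2 p.1) ⬝ᵥ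
      ((1 : Matrix ((Fin n → ι) × (Fin n → ι)) _ K) *ᵥ
        fun p : (Fin n → ι) × (Fin n → ι) => (c : Matrix (Fin n → ι) (Fin n → ι) K) p.1 p.2) = 0 at h1
    rw [Matrix.one_mulVec] at h1
    rw [← h1]
    simp only [Matrix.trace, Matrix.diag, Matrix.mul_apply, dotProduct, Fintype.sum_prod_type]
    exact Finset.sum_congr rfl fun _ _ => Finset.sum_congr rfl fun _ _ => mul_comm _ _
  have : c = 0 := Subtype.ext hc
  rw [this, map_zero]

lemma tder_perm (n : ℕ) (x : Matrix ι ι K) (σ : Equiv.Perm (Fin n)) (I J : Fin n → ι) :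
    tder n x (I ∘ σ) (J ∘ σ) = tder n x I J := by
  simp only [tder, Matrix.of_apply, Function.comp_apply]
  rw [← Equiv.sum_comp σ fun k => if ∀ l, l ≠ k → I l = J l then x (I k) (J k) else 0]
  refine Finset.sum_congr rfl fun k _ => ?_
  have e : (∀ l, l ≠ k → I (σ l) = J (σ l)) ↔ ∀ l, l ≠ σ k → I l = J l := by
    constructor
    · intro h l hl
      have := h (σ.symm l) (fun h' => hl (by rw [← h', Equiv.apply_symm_apply]))
      simpa using this
    · intro h l hl
      exact h (σ l) fun h' => hl (σ.injective h')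
  simp only [e]

/-- The representation of the permutations. -/
def prm (ι K : Type) [Field K] (n : ℕ) :
    Equiv.Perm (Fin n) →* Module.End K ((Fin n → ι) → K) where
  toFun σ :=
    { toFun := fun f w => f (w ∘ σ)
      map_add' := fun _ _ => rfl
      map_smul' := fun _ _ => rfl }
  map_one' := rfl
  map_mul' _ _ := rfl

lemma growth [CharZero K] (n : ℕ) : Fintype.card ι ^ (2 * n) ≤
    finrank K (cm φ n) * (n + 1) ^ (Fintype.card ι ^ 2) := by
  have h := span_perm (Pi.basisFun K (Fin n → ι)) (prm ι K n) (fun σ w => ⟨1, one_ne_zero, by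
    rw [one_smul, Pi.basisFun_apply, Pi.basisFun_apply]
    funext w'
    change (Pi.single (w ∘ σ) (1 : K) : (Fin n → ι) → K) (w' ∘ σ) =
      (Pi.single w (1 : K) : (Fin n → ι) → K) w'
    simp only [Pi.single_apply]
    have : (w' ∘ σ = w ∘ σ) ↔ w' = w := ⟨fun h => by
      funext l
      have := congrFun h (σ.symm l)
      simpa using this, fun h => by rw [h]⟩
    simp only [this]⟩)
  rw [Module.finrank_fintype_fun_eq_card, Fintype.card_fun, Fintype.card_fin, ← pow_mul,
    mul_comm n 2] at h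
  refine h.trans (Nat.mul_le_mul_right _ ?_)
  let L : Module.End K ((Fin n → ι) → K) ≃ₗ[K] Matrix (Fin n → ι) (Fin n → ι) K :=
    LinearMap.toMatrix'
  have h1 : (Submodule.span K (Set.range (prm ι K n))).map L.toLinearMap ≤ cm φ n := by
    rw [Submodule.map_span_le]
    rintro _ ⟨σ, rfl⟩
    intro x
    apply Matrix.toLin'.injective
    rw [Matrix.toLin'_mul, Matrix.toLin'_mul]
    change _ ∘ₗ (Matrix.toLin' (LinearMap.toMatrix' _)) = (Matrix.toLin' (LinearMap.toMatrix' _)) ∘ₗ _
    rw [Matrix.toLin'_toMatrix']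
    apply LinearMap.ext
    intro f
    funext w
    change (tder n (φ x) *ᵥ fun w => f (w ∘ σ)) w = (tder n (φ x) *ᵥ f) (w ∘ σ)
    simp only [Matrix.mulVec, dotProduct]
    rw [← Equiv.sum_comp (Equiv.arrowCongr σ.symm (Equiv.refl ι)) fun w' =>
      tder n (φ x) (w ∘ σ) w' * f w']
    refine Finset.sum_congr rfl fun w' _ => ?_
    have e : (Equiv.arrowCongr σ.symm (Equiv.refl ι)) w' = w' ∘ σ := rfl
    rw [e, tder_perm]
  have h2 := Submodule.finrank_mono h1
  rwa [LinearEquiv.finrank_map_eq] at h2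

end Pool.Agent.D0H78.LG
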