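import Pool.Agent.Y133.Half.Seq

/-!
# Explicit ratios of a log-convex sequence
-/

set_option autoImplicit false

namespace Pool.Agent.D0H78.LG

open Pool.Agent.Y133.Half (ratio_mono ratio_pow)

lemma succ_lt_exp_sqrt {l : ℕ} (hl : 0 < l) : (l : ℝ) + 1 < Real.exp (Real.sqrt l) := by
  set y := Real.sqrt l with hy
  have hy0 : 0 < y := Real.sqrt_pos.2 (by exact_mod_cast hl)
  have h1 : (l : ℝ) = y ^ 2 := (Real.sq_sqrt (Nat.cast_nonneg l)).symm
  have h2 := Real.sum_le_exp_of_nonneg hy0.le 4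
  simp only [Finset.sum_range_succ, Finset.sum_range_zero, Nat.factorial] at h2
  norm_num at h2
  rw [h1]
  nlinarith [mul_pos hy0 hy0, sq_nonneg (y - 3 / 2), mul_nonneg hy0.le (sq_nonneg (y - 3 / 2))]

/-- The ratios are close to the maximal one from an explicit place on. -/
lemma ratio_explicit {α : ℕ → ℕ} {B : ℕ} (hB : 1 ≤ B) (hpos : ∀ l, 0 < α l) (h0 : α 0 = 1)
    (hconv : ∀ l, α (l + 1) ^ 2 ≤ α (l + 2) * α l)
    (hgr : ∀ l, B ^ l ≤ α l * (l + 1) ^ B) {η : ℝ} (hη : 0 < η) (hη1 : η ≤ 1) {l : ℕ}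
    (hl : ((B : ℝ) / η) ^ 2 ≤ l) : (B : ℝ) * (1 - η) * α l ≤ α (l + 1) := by
  by_contra hlt
  push Not at hlt
  have hB0 : (0 : ℝ) < B := by exact_mod_cast hB
  have hl0 : 0 < l := by
    have : (0 : ℝ) < l := lt_of_lt_of_le (by positivity) hl
    exact_mod_cast this
  have hc0 : 0 ≤ (B : ℝ) * (1 - η) := mul_nonneg hB0.le (by linarith)
  have h1 : ∀ j ≤ l, (α (j + 1) : ℝ) ≤ (B : ℝ) * (1 - η) * α j := by
    intro j hj
    by_contra h
    push Not at h
    exact absurd (ratio_mono hpos hconv h.le hj) (not_le.2 hlt)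
  have h2 : ∀ j ≤ l, (α j : ℝ) ≤ ((B : ℝ) * (1 - η)) ^ j := by
    intro j
    induction j with
    | zero => intro _; rw [h0]; simp
    | succ j ih =>
      intro hj
      calc (α (j + 1) : ℝ) ≤ (B : ℝ) * (1 - η) * α j := h1 j (by omega)
        _ ≤ (B : ℝ) * (1 - η) * ((B : ℝ) * (1 - η)) ^ j :=
            mul_le_mul_of_nonneg_left (ih (by omega)) hc0
        _ = _ := by ring
  have h3 : (B : ℝ) ^ l ≤ α l * ((l : ℝ) + 1) ^ B := by exact_mod_cast hgr l
  have h4 : (B : ℝ) ^ l ≤ (B : ℝ) ^ l * (Real.exp (-(η * l)) * ((l : ℝ) + 1) ^ B) := by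
    refine h3.trans ?_
    have h5 : ((B : ℝ) * (1 - η)) ^ l ≤ (B : ℝ) ^ l * Real.exp (-(η * l)) := by
      rw [mul_pow]
      refine mul_le_mul_of_nonneg_left ?_ (by positivity)
      calc (1 - η) ^ l ≤ (Real.exp (-η)) ^ l := by
            refine pow_le_pow_left₀ (by linarith) ?_ l
            have := Real.add_one_le_exp (-η)
            linarith
        _ = Real.exp (-(η * l)) := by
            rw [← Real.exp_nat_mul]
            congr 1
            ring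
    calc (α l : ℝ) * ((l : ℝ) + 1) ^ B ≤ ((B : ℝ) * (1 - η)) ^ l * ((l : ℝ) + 1) ^ B :=
          mul_le_mul_of_nonneg_right (h2 l le_rfl) (by positivity)
      _ ≤ ((B : ℝ) ^ l * Real.exp (-(η * l))) * ((l : ℝ) + 1) ^ B :=
          mul_le_mul_of_nonneg_right h5 (by positivity)
      _ = _ := by ring
  have h5 : (1 : ℝ) ≤ Real.exp (-(η * l)) * ((l : ℝ) + 1) ^ B := by
    have hp : (0 : ℝ) < (B : ℝ) ^ l := by positivity
    nlinarith [h4]
  have h6 : ((l : ℝ) + 1) ^ B < Real.exp ((B : ℝ) * Real.sqrt l) := by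
    rw [Real.exp_nat_mul]
    exact pow_lt_pow_left₀ (succ_lt_exp_sqrt hl0) (by positivity) (by omega)
  have h7 : (1 : ℝ) < Real.exp (-(η * l) + (B : ℝ) * Real.sqrt l) := by
    rw [Real.exp_add]
    exact lt_of_le_of_lt h5 (mul_lt_mul_of_pos_left h6 (Real.exp_pos _))
  have h8 : 0 < -(η * l) + (B : ℝ) * Real.sqrt l := by
    by_contra h
    push Not at h
    have := Real.exp_le_one_iff.2 h
    linarith
  have hs0 : 0 < Real.sqrt l := Real.sqrt_pos.2 (by exact_mod_cast hl0)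
  have hs : (l : ℝ) = Real.sqrt l ^ 2 := (Real.sq_sqrt (Nat.cast_nonneg l)).symm
  have h9 : η * Real.sqrt l < B := by
    have h10 : η * (Real.sqrt l ^ 2) < B * Real.sqrt l := by rw [← hs]; linarith
    nlinarith
  have h10 : Real.sqrt l < B / η := by rw [lt_div_iff₀ hη]; linarith
  have h11 : (l : ℝ) < (B / η) ^ 2 := by
    rw [hs]
    exact pow_lt_pow_left₀ h10 hs0.le two_ne_zero
  linarith

/-- The place from which on the inequality decides. -/
def bound (B m C : ℕ) : ℕ := ((C + 2) * m * B ^ (m + 1)) ^ 2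

lemma final_ineq {α : ℕ → ℕ} {B m C : ℕ} (hB : 1 ≤ B) (hm : 1 ≤ m) (hpos : ∀ l, 0 < α l)
    (h0 : α 0 = 1) (hconv : ∀ l, α (l + 1) ^ 2 ≤ α (l + 2) * α l)
    (hgr : ∀ l, B ^ l ≤ α l * (l + 1) ^ B) {n : ℕ} (hn : bound B m C ≤ n)
    {t : ℕ} (ht : ((C : ℝ) + 1) * ((α (n + m) : ℝ) + α n - (B : ℝ) ^ m * α n) ≤ t) :
    C * α n < t := by
  have hB0 : (0 : ℝ) < B := by exact_mod_cast hB
  have hm0 : (0 : ℝ) < m := by exact_mod_cast hm
  have hBm : (0 : ℝ) < (B : ℝ) ^ m := by positivity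
  have hBm1 : (1 : ℝ) ≤ (B : ℝ) ^ m := one_le_pow₀ (by exact_mod_cast hB)
  set η : ℝ := 1 / (((C : ℝ) + 2) * m * (B : ℝ) ^ m) with hη
  have hη0 : 0 < η := by positivity
  have hη1 : η * ((m : ℝ) * (B : ℝ) ^ m * ((C : ℝ) + 2)) = 1 := by
    rw [hη]; field_simp
  have hη2 : η ≤ 1 := by
    rw [hη, div_le_one (by positivity)]
    have h1 : (1 : ℝ) ≤ m := by exact_mod_cast hm
    have h2 : (1 : ℝ) ≤ (C : ℝ) + 2 := by have := Nat.cast_nonneg (α := ℝ) C; linarith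
    nlinarith [mul_le_mul h2 h1 zero_le_one (by linarith)]
  have hL : ∀ l ≥ n, (B : ℝ) * (1 - η) * α l ≤ α (l + 1) := by
    intro l hl
    refine ratio_explicit hB hpos h0 hconv hgr hη0 hη2 ?_
    have h1 : (B : ℝ) / η = ((C : ℝ) + 2) * m * (B : ℝ) ^ (m + 1) := by
      rw [hη]; field_simp; ring
    rw [h1]
    have h2 : (bound B m C : ℝ) ≤ l := by exact_mod_cast hn.trans hl
    rw [bound] at h2
    push_cast at h2
    exact h2
  have h1 := ratio_pow (mul_nonneg hB0.le (by linarith : (0 : ℝ) ≤ 1 - η)) hL m n le_rfl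
  have h2 : (1 - m * η) ≤ (1 - η) ^ m := by
    have := one_add_mul_le_pow (a := -η) (by linarith) m
    calc (1 - m * η) = 1 + m * (-η) := by ring
      _ ≤ (1 + -η) ^ m := this
      _ = _ := by ring_nf
  have hα : (0 : ℝ) < α n := by exact_mod_cast hpos n
  have h3 : (B : ℝ) ^ m * (1 - m * η) * α n ≤ α (n + m) := by
    refine le_trans ?_ h1
    rw [mul_pow]
    exact mul_le_mul_of_nonneg_right (mul_le_mul_of_nonneg_left h2 hBm.le) hα.le
  have h4 : (1 - (B : ℝ) ^ m * (m * η)) * α n ≤ (α (n + m) : ℝ) + α n - (B : ℝ) ^ m * α n := by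
    nlinarith
  have h5 : (B : ℝ) ^ m * (m * η) = 1 / ((C : ℝ) + 2) := by
    rw [hη]; field_simp
  rw [h5] at h4
  have hC : (0 : ℝ) ≤ C := Nat.cast_nonneg C
  have h6 : (C : ℝ) * α n < t := by
    refine lt_of_lt_of_le ?_ ht
    have h7 : ((C : ℝ) + 1) * ((1 - 1 / ((C : ℝ) + 2)) * α n) ≤
        ((C : ℝ) + 1) * ((α (n + m) : ℝ) + α n - (B : ℝ) ^ m * α n) :=
      mul_le_mul_of_nonneg_left h4 (by linarith)
    refine lt_of_lt_of_le ?_ h7
    have h8 : (C : ℝ) < ((C : ℝ) + 1) * (1 - 1 / ((C : ℝ) + 2)) := by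
      have h9 : (1 - 1 / ((C : ℝ) + 2)) = ((C : ℝ) + 1) / ((C : ℝ) + 2) := by
        field_simp; ring
      rw [h9, mul_div_assoc', lt_div_iff₀ (by linarith)]
      nlinarith
    nlinarith
  exact_mod_cast h6

end Pool.Agent.D0H78.LG
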