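import Pool.Agent.D0H78.LG.Chain
import Pool.Agent.D0H78.LG.Grow
import Pool.Agent.D0H78.LG.Num

/-!
# The gap for the numbers of the invariants of a smaller Lie algebra
-/

set_option autoImplicit false
set_option linter.unusedSectionVars false

open Matrix Module
open scoped Kronecker

namespace Pool.Agent.D0H78.LG

open Pool.Agent.Y133.Half (Cat rk rk_comp)
open Pool.Agent.D0H93.MT (tder)

variable {ι : Type} [Fintype ι] [DecidableEq ι] {Λ K : Type} [Field K]

/-- The vectors killed by a part of the operators. -/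
def TI (X : Ob Λ K) (S : Set Λ) : Submodule K (X.ty → K) where
  carrier := {v | ∀ x ∈ S, X.op x *ᵥ v = 0}
  zero_mem' := fun x _ => Matrix.mulVec_zero _
  add_mem' := fun {a b} ha hb x hx => by rw [Matrix.mulVec_add, ha x hx, hb x hx, add_zero]
  smul_mem' := fun c a ha x hx => by rw [Matrix.mulVec_smul, ha x hx, smul_zero]

lemma tn_mulVec (X Y : Ob Λ K) (x : Λ) (v : X.ty → K) (w : Y.ty → K) :
    (tn X Y).op x *ᵥ (fun p : X.ty × Y.ty => v p.1 * w p.2) =
      fun p : X.ty × Y.ty => (X.op x *ᵥ v) p.1 * w p.2 + v p.1 * (Y.op x *ᵥ w) p.2 := by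
  funext ⟨a, b⟩
  rw [Matrix.mulVec, dotProduct, Fintype.sum_prod_type]
  change ∑ c, ∑ d, (X.op x a c * (1 : Matrix Y.ty Y.ty K) b d +
    (1 : Matrix X.ty X.ty K) a c * Y.op x b d) * (v c * w d) = _
  simp only [add_mul, Finset.sum_add_distrib, Matrix.mulVec, dotProduct]
  congr 1
  · rw [Finset.sum_mul]
    refine Finset.sum_congr rfl fun c _ => ?_
    rw [Finset.sum_eq_single b]
    · rw [Matrix.one_apply_eq]; ring
    · intro d _ hd
      rw [Matrix.one_apply_ne hd.symm, mul_zero, zero_mul]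
    · intro h; exact absurd (Finset.mem_univ _) h
  · rw [Finset.sum_eq_single a]
    · rw [Finset.mul_sum]
      refine Finset.sum_congr rfl fun d _ => ?_
      rw [Matrix.one_apply_eq]; ring
    · intro c _ hc
      refine Finset.sum_eq_zero fun d _ => ?_
      rw [Matrix.one_apply_ne hc.symm, zero_mul, zero_mul]
    · intro h; exact absurd (Finset.mem_univ _) h

variable (φ : Λ → Matrix ι ι K)

lemma pwr_mem {q : ℕ} {S : Set Λ} {v : (E φ q).ty → K} (hv : v ∈ TI (E φ q) S) (k : ℕ) :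
    pwr φ q v k ∈ TI (O φ q k) S := by
  induction k with
  | zero =>
    intro x _
    have h : (O φ q 0).op x = 0 := rfl
    rw [h, Matrix.zero_mulVec]
  | succ k ih =>
    intro x hx
    have h := tn_mulVec (O φ q k) (E φ q) x (pwr φ q v k) v
    rw [ih x hx, hv x hx] at h
    refine Eq.trans h ?_
    funext p
    simp

lemma map_TI {X Y : Ob Λ K} {S : Set Λ} {f : Matrix Y.ty X.ty K}
    (hf : ∀ x, f * X.op x = Y.op x * f) {v : X.ty → K} (hv : v ∈ TI X S) : f *ᵥ v ∈ TI Y S := by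
  intro x hx
  rw [Matrix.mulVec_mulVec, ← hf, ← Matrix.mulVec_mulVec, hv x hx, Matrix.mulVec_zero]

lemma chn_le_TI {q : ℕ} {S : Set Λ} {v : (E φ q).ty → K} (hv : v ∈ TI (E φ q) S) (k i : ℕ) :
    chn φ q v k i ≤ TI (O φ q k) S := by
  refine Submodule.span_le.2 ?_
  rintro _ ⟨j, _, f, hf, rfl⟩
  exact map_TI hf (pwr_mem φ hv j)

lemma chn_stable {q : ℕ} (v : (E φ q).ty → K) (k i : ℕ)
    {f : Matrix (O φ q k).ty (O φ q k).ty K} (hf : ∀ x, f * (O φ q k).op x = (O φ q k).op x * f)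
    {u : (O φ q k).ty → K} (hu : u ∈ chn φ q v k i) : f *ᵥ u ∈ chn φ q v k i := by
  induction hu using Submodule.span_induction with
  | mem u hu =>
    obtain ⟨j, hj, g, hg, rfl⟩ := hu
    refine Submodule.subset_span ⟨j, hj, f * g, fun x => ?_, ?_⟩
    · rw [Matrix.mul_assoc, hg, ← Matrix.mul_assoc, hf, Matrix.mul_assoc]
    · rw [Matrix.mulVec_mulVec]
  | zero => rw [Matrix.mulVec_zero]; exact Submodule.zero_mem _
  | add u w _ _ hu hw => rw [Matrix.mulVec_add]; exact Submodule.add_mem _ hu hw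
  | smul c u _ hu => rw [Matrix.mulVec_smul]; exact Submodule.smul_mem _ _ hu

/-- The rank in the category is the rank of the form with two tensor factors moved. -/
lemma rho_fY (P : Ob Λ K) (g : Matrix P.ty P.ty K) (n : ℕ) :
    rho (tn P (du (E φ n))) (g ⊗ₖ (1 : Matrix (E φ n).ty (E φ n).ty K)ᵀ) = fY (V φ n) P g := by
  rw [Matrix.transpose_one]
  refine rho_eq (X := tn P (du (E φ n))) (Y := tn (tn P (V φ n)) (du (V φ n)))
    { toFun := fun q => ((q.1, q.2.2), q.2.1)
      invFun := fun q => (q.1.1, (q.2, q.1.2))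
      left_inv := fun _ => rfl
      right_inv := fun _ => rfl } ?_ ?_
  · rintro x ⟨p, ⟨s, t⟩⟩ ⟨r, ⟨s', t'⟩⟩
    change P.op x p r * (1 : Matrix ((Fin n → ι) × (Fin n → ι)) _ K) (s, t) (s', t') +
        (1 : Matrix P.ty P.ty K) p r *
        -(tder n (φ x) s' s * (1 : Matrix (Fin n → ι) _ K) t' t +
          (1 : Matrix (Fin n → ι) _ K) s' s * -(tder n (φ x) t t')) =
      (P.op x p r * (1 : Matrix (Fin n → ι) _ K) t t' + (1 : Matrix P.ty P.ty K) p r *
        tder n (φ x) t t') * (1 : Matrix (Fin n → ι) _ K) s s' +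
        (1 : Matrix (P.ty × (Fin n → ι)) _ K) (p, t) (r, t') * -(tder n (φ x) s' s)
    rw [one_prod s s' t t', one_prod p r t t', one_symm t' t, one_symm s' s]
    ring
  · rintro ⟨p, ⟨s, t⟩⟩ ⟨r, ⟨s', t'⟩⟩
    change g p r * (1 : Matrix ((Fin n → ι) × (Fin n → ι)) _ K) (s, t) (s', t') =
      (g p r * (1 : Matrix (Fin n → ι) _ K) t t') * (1 : Matrix (Fin n → ι) _ K) s s'
    rw [one_prod s s' t t']
    ring

lemma fY_O (q : ℕ) (k : ℕ) : ∀ n, fY (V φ n) (O φ q k) 1 = a φ (n + k * q) := by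
  induction k with
  | zero =>
    intro n
    rw [zero_mul, add_zero]
    exact fY_unit (V φ n)
  | succ k ih =>
    intro n
    have h := fY_move φ (O φ q k) 1 q n
    have e : (1 : Matrix (O φ q k).ty (O φ q k).ty K) ⊗ₖ (1 : Matrix (E φ q).ty (E φ q).ty K) =
        (1 : Matrix ((O φ q k).ty × (E φ q).ty) _ K) := Matrix.one_kronecker_one
    rw [e, ih] at h
    refine Eq.trans h ?_
    congr 1
    ring

lemma card_O (q k : ℕ) : Fintype.card (O φ q k).ty = (Fintype.card ι ^ 2) ^ (k * q) := by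
  induction k with
  | zero => rw [zero_mul, pow_zero]; rfl
  | succ k ih =>
    change Fintype.card ((O φ q k).ty × ((Fin q → ι) × (Fin q → ι))) = _
    rw [Fintype.card_prod, Fintype.card_prod, Fintype.card_fun, Fintype.card_fin, ih,
      ← pow_mul, ← pow_mul, ← pow_add, ← pow_add]
    congr 1
    ring

lemma key_chain (n k : ℕ) {q : ℕ} {S : Set Λ} {v : (E φ q).ty → K} (hv : v ∈ TI (E φ q) S)
    (hlt : ∀ i ≤ k, chn φ q v k i < chn φ q v k (i + 1)) :
    ∃ g : ℕ → Matrix (O φ q k).ty (O φ q k).ty K,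
      (∀ i < k + 1, (∀ x, g i * (O φ q k).op x = (O φ q k).op x * g i) ∧ g i * g i = g i ∧
        g i ≠ 0) ∧
      ∑ i ∈ Finset.range (k + 1), fY (V φ n) (O φ q k) (g i) ≤
        finrank K (TI (E φ n) S) := by
  let Z : Fin 2 → Ob Λ K := ![O φ q k, E φ n]
  have hst : ∀ i, (cat Z).Stable (i := 0) (chn φ q v k i) := by
    intro i b hb u hu
    have h1 : b = (LinearMap.toMatrix' b).toLin' := (Matrix.toLin'_toMatrix' b).symm
    have h2 : ∀ x, (show Matrix (O φ q k).ty (O φ q k).ty K from LinearMap.toMatrix' b) *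
        (O φ q k).op x = (O φ q k).op x *
        (show Matrix (O φ q k).ty (O φ q k).ty K from LinearMap.toMatrix' b) :=
      toLin_mem (Z := Z) (i := 0) (j := 0) |>.1 (h1 ▸ hb)
    rw [h1]
    exact chn_stable φ v k i h2 hu
  obtain ⟨g, hg, hs⟩ := (cat Z).chain (0 : Fin 2) (fun i => chn φ q v k i) hst (k + 1)
    (fun i hi => hlt i (Nat.lt_succ_iff.1 hi)) (1 : Fin 2)
  refine ⟨fun i => LinearMap.toMatrix' (g i), fun i hi => ?_, ?_⟩
  · obtain ⟨h1, h2, h3⟩ := hg i hi
    have h4 : g i = (LinearMap.toMatrix' (g i)).toLin' := (Matrix.toLin'_toMatrix' (g i)).symm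
    refine ⟨toLin_mem (Z := Z) (i := 0) (j := 0) |>.1 (h4 ▸ h1), ?_, fun h5 => h3 ?_⟩
    · exact (LinearMap.toMatrix'_comp (g i) (g i)).symm.trans (congrArg _ h2)
    · exact (LinearMap.toMatrix'.map_eq_zero_iff).1 h5
  · have h1 : ∀ i, fY (V φ n) (O φ q k) (LinearMap.toMatrix' (g i)) =
        rk (A := (cat Z).S 0 1) (B := (cat Z).S 1 0) ((cat Z).B 0 1 (g i) LinearMap.id) := by
      intro i
      rw [← rho_fY]
      have h2 := rk_cat Z 0 1 (LinearMap.toMatrix' (g i)) 1
      rw [Matrix.toLin'_toMatrix', Matrix.toLin'_one] at h2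
      exact h2.symm
    rw [Finset.sum_congr rfl fun i _ => h1 i]
    refine hs.trans ?_
    have h3 : (cat Z).gen 0 1 (chn φ q v k (k + 1)) ≤
        (TI (E φ n) S : Submodule K ((E φ n).ty → K)) := by
      refine Submodule.span_le.2 ?_
      rintro _ ⟨f, hf, u, hu, rfl⟩
      have h4 : f = (LinearMap.toMatrix' f).toLin' := (Matrix.toLin'_toMatrix' f).symm
      have h5 : ∀ x, (show Matrix (E φ n).ty (O φ q k).ty K from LinearMap.toMatrix' f) *
          (O φ q k).op x = (E φ n).op x *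
          (show Matrix (E φ n).ty (O φ q k).ty K from LinearMap.toMatrix' f) :=
        toLin_mem (Z := Z) (i := 1) (j := 0) |>.1 (h4 ▸ hf)
      have h6 := map_TI (X := O φ q k) (Y := E φ n) h5 (chn_le_TI φ hv k (k + 1) hu)
      rw [h4]
      exact h6
    exact Submodule.finrank_mono h3

variable [CharZero K] [Nonempty ι]

lemma a_pos {n : ℕ} (h : Nd φ n) : 0 < a φ n := by
  rw [a_eq φ h]
  have h1 : (1 : Matrix (Fin n → ι) (Fin n → ι) K) ∈ cm φ n := fun x => by rw [mul_one, one_mul]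
  have h2 : (1 : Matrix (Fin n → ι) (Fin n → ι) K) ≠ 0 := one_ne_zero
  have : Nontrivial (cm φ n) := ⟨⟨⟨1, h1⟩, 0, fun h => h2 (congrArg Subtype.val h)⟩⟩
  exact Module.finrank_pos

lemma a_zero (h : Nd φ 0) : a φ 0 = 1 := by
  apply le_antisymm
  · rw [a_eq φ h]
    refine (Submodule.finrank_le _).trans ?_
    rw [Module.finrank_matrix, Module.finrank_self]
    simp
  · exact a_pos φ h

/-- **The gap.** If the operators in `S` kill an endomorphism of the `q`-th tensor power which is not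
killed by all operators, then they kill more than `C` times as many endomorphisms of the `n`-th
tensor power as all operators, for all `n` from an explicit bound on. -/
theorem gap (hnd : ∀ n, Nd φ n) {q C n : ℕ} (hn : bound (Fintype.card ι ^ 2) (C * q) C ≤ n)
    (hC : 1 ≤ C) {S : Set Λ} {v : (E φ q).ty → K} (hv : v ∈ TI (E φ q) S) {x : Λ}
    (hx : (E φ q).op x *ᵥ v ≠ 0) :
    C * finrank K (cm φ n) < finrank K (TI (E φ n) S) := by
  have hq : 1 ≤ q := by
    by_contra h
    have : q = 0 := by omega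
    subst this
    apply hx
    have h1 : tder 0 (φ x) = 0 := by
      ext I J
      simp [tder]
    funext p
    obtain ⟨s, t⟩ := p
    rw [Matrix.mulVec, dotProduct, Fintype.sum_prod_type]
    change ∑ s', ∑ t', (tder 0 (φ x) s s' * (1 : Matrix (Fin 0 → ι) _ K) t t' +
      (1 : Matrix (Fin 0 → ι) _ K) s s' * -(tder 0 (φ x) t' t)) * v (s', t') = 0
    simp [h1]
  have hne : Nonempty (Fin q → ι) := inferInstance
  obtain ⟨g, hg, hs⟩ := key_chain φ n C hv fun i hi => chn_lt φ q v hne hx hi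
  have hcard := card_O φ (K := K) q C
  rw [← a_eq φ (hnd n)]
  have hB : 1 ≤ Fintype.card ι ^ 2 := Nat.one_le_pow _ _ Fintype.card_pos
  refine final_ineq hB (Nat.mul_pos hC hq) (fun l => a_pos φ (hnd l)) (a_zero φ (hnd 0))
    (fun l => ?_) (fun l => ?_) hn ?_
  · have h := a_convex φ l (K := K)
    have e1 : 1 + l = l + 1 := Nat.add_comm 1 l
    have e2 : 1 + (l + 1) = l + 2 := by omega
    rwa [e1, e2] at h
  · rw [a_eq φ (hnd l), ← pow_mul]
    exact growth φ l
  · have h1 : ∀ i ∈ Finset.range (C + 1), (a φ (n + C * q) : ℝ) + a φ n -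
        ((Fintype.card ι ^ 2 : ℕ) : ℝ) ^ (C * q) * a φ n ≤ fY (V φ n) (O φ q C) (g i) := by
      intro i hi
      obtain ⟨h2, h3, h4⟩ := hg i (Finset.mem_range.1 hi)
      have h5 := fY_lower (V φ n) (O φ q C) h2 h3 h4
      rw [fY_O, hcard] at h5
      have h6 : ((a φ (n + C * q) : ℝ) + a φ n) ≤ fY (V φ n) (O φ q C) (g i) +
          ((Fintype.card ι ^ 2 : ℕ) : ℝ) ^ (C * q) * a φ n := by
        exact_mod_cast h5
      linarith
    have h2 := Finset.sum_le_sum h1
    rw [Finset.sum_const, Finset.card_range, nsmul_eq_mul] at h2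
    have h3 : (∑ i ∈ Finset.range (C + 1), (fY (V φ n) (O φ q C) (g i) : ℝ)) ≤
        finrank K (TI (E φ n) S) := by exact_mod_cast hs
    refine le_trans ?_ (h2.trans h3)
    push_cast
    exact le_rfl

end Pool.Agent.D0H78.LG
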