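import Pool.Agent.Y133.Half.Gr0
import Pool.Agent.Y133.Half.Seq
import Pool.Agent.Y133.Half.Key

/-!
# Modules in coordinates and ranks of forms on their invariants
-/

set_option autoImplicit false
set_option linter.unusedSectionVars false

open Matrix Module
open scoped Kronecker

namespace Pool.Agent.D0H78.LG

open Pool.Agent.Y133.Half (Cat rk rk_comp rk_add_le)

/-- A module in coordinates over the set `Λ` of operators. -/
structure Ob (Λ K : Type) where
  /-- the indices of the coordinates -/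
  ty : Type
  /-- they are finitely many -/
  fin : Fintype ty
  /-- decidable equality -/
  dec : DecidableEq ty
  /-- the action of the operators -/
  op : Λ → Matrix ty ty K

attribute [instance] Ob.fin Ob.dec

variable {Λ K : Type} [Field K]

/-- The tensor product. -/
abbrev tn (X Y : Ob Λ K) : Ob Λ K where
  ty := X.ty × Y.ty
  fin := inferInstance
  dec := inferInstance
  op := fun x => X.op x ⊗ₖ (1 : Matrix Y.ty Y.ty K) + (1 : Matrix X.ty X.ty K) ⊗ₖ Y.op x

/-- The dual module. -/
abbrev du (X : Ob Λ K) : Ob Λ K where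
  ty := X.ty
  fin := X.fin
  dec := X.dec
  op := fun x => -(X.op x)ᵀ

/-- The invariants. -/
def Inv (X : Ob Λ K) : Submodule K (X.ty → K) where
  carrier := {v | ∀ x, X.op x *ᵥ v = 0}
  zero_mem' := fun x => Matrix.mulVec_zero _
  add_mem' := fun {a b} ha hb x => by rw [Matrix.mulVec_add, ha x, hb x, add_zero]
  smul_mem' := fun c a ha x => by rw [Matrix.mulVec_smul, ha x, smul_zero]

lemma mem_Inv {X : Ob Λ K} {v : X.ty → K} : v ∈ Inv X ↔ ∀ x, X.op x *ᵥ v = 0 := Iff.rfl

/-- The form given by a matrix. -/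
def bil {α : Type} [Fintype α] (g : Matrix α α K) : (α → K) →ₗ[K] (α → K) →ₗ[K] K :=
  LinearMap.mk₂ K (fun v w => w ⬝ᵥ (g *ᵥ v))
    (fun v v' w => by rw [Matrix.mulVec_add, dotProduct_add])
    (fun c v w => by rw [Matrix.mulVec_smul, dotProduct_smul])
    (fun v w w' => by rw [add_dotProduct])
    (fun c v w => by rw [smul_dotProduct])

lemma bil_apply {α : Type} [Fintype α] (g : Matrix α α K) (v w : α → K) :
    bil g v w = w ⬝ᵥ (g *ᵥ v) := rfl

/-- The form given by the matrix `g` on the invariants of `X` and of the dual of `X`. -/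
def frm (X : Ob Λ K) (g : Matrix X.ty X.ty K) : Inv X →ₗ[K] Inv (du X) →ₗ[K] K :=
  (bil g).compl₁₂ (Inv X).subtype (Inv (du X)).subtype

lemma frm_apply (X : Ob Λ K) (g : Matrix X.ty X.ty K) (v : Inv X) (w : Inv (du X)) :
    frm X g v w = (w : X.ty → K) ⬝ᵥ (g *ᵥ (v : X.ty → K)) := rfl

/-- Its rank. -/
noncomputable def rho (X : Ob Λ K) (g : Matrix X.ty X.ty K) : ℕ := rk (frm X g)

/-- The rank does not depend on the names of the coordinates. -/
lemma rho_eq {X Y : Ob Λ K} (e : X.ty ≃ Y.ty) (he : ∀ x a b, X.op x a b = Y.op x (e a) (e b))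
    {g : Matrix X.ty X.ty K} {h : Matrix Y.ty Y.ty K} (hg : ∀ a b, g a b = h (e a) (e b)) :
    rho X g = rho Y h := by
  have key : ∀ (M : Matrix X.ty X.ty K) (N : Matrix Y.ty Y.ty K)
      (_ : ∀ a b, M a b = N (e a) (e b)) (v : Y.ty → K) (a : X.ty),
      (M *ᵥ (v ∘ e)) a = (N *ᵥ v) (e a) := by
    intro M N hMN v a
    simp only [Matrix.mulVec, dotProduct, Function.comp_apply, hMN]
    exact Equiv.sum_comp e fun b => N (e a) b * v b
  have key2 : ∀ (M : Matrix X.ty X.ty K) (N : Matrix Y.ty Y.ty K)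
      (_ : ∀ a b, M a b = N (e a) (e b)) (v : Y.ty → K), M *ᵥ (v ∘ e) = (N *ᵥ v) ∘ e :=
    fun M N hMN v => funext fun a => key M N hMN v a
  have hop : ∀ x a b, (du X).op x a b = (du Y).op x (e a) (e b) := by
    intro x a b
    change -(X.op x b a) = -(Y.op x (e b) (e a))
    rw [he]
  have inv_iff : ∀ (A B : Ob Λ K) (e' : A.ty ≃ B.ty)
      (_ : ∀ x a b, A.op x a b = B.op x (e' a) (e' b)) (v : B.ty → K),
      v ∈ Inv B → v ∘ e' ∈ Inv A := by
    intro A B e' he' v hv x
    funext a
    simp only [Matrix.mulVec, dotProduct, Function.comp_apply, he', Pi.zero_apply]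
    rw [Equiv.sum_comp e' fun b => B.op x (e' a) b * v b]
    exact congrFun (hv x) (e' a)
  let F : Inv Y →ₗ[K] Inv X :=
    { toFun := fun v => ⟨(v : Y.ty → K) ∘ e, inv_iff X Y e he v v.2⟩
      map_add' := fun _ _ => rfl
      map_smul' := fun _ _ => rfl }
  let G : Inv (du Y) →ₗ[K] Inv (du X) :=
    { toFun := fun v => ⟨(v : Y.ty → K) ∘ e, inv_iff (du X) (du Y) e hop v v.2⟩
      map_add' := fun _ _ => rfl
      map_smul' := fun _ _ => rfl }
  have hF : Function.Surjective F := by
    rintro ⟨v, hv⟩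
    refine ⟨⟨v ∘ e.symm, inv_iff Y X e.symm (fun x a b => by simp [he]) v hv⟩, Subtype.ext ?_⟩
    funext a
    exact congrArg v (e.symm_apply_apply a)
  have hG : Function.Surjective G := by
    rintro ⟨v, hv⟩
    refine ⟨⟨v ∘ e.symm, inv_iff (du Y) (du X) e.symm (fun x a b => by
      change _ = (du X).op x (e.symm a) (e.symm b); rw [hop]; simp) v hv⟩, Subtype.ext ?_⟩
    funext a
    exact congrArg v (e.symm_apply_apply a)
  rw [rho, rho, ← rk_comp (frm X g) hF hG]
  congr 1
  apply LinearMap.ext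
  intro v
  apply LinearMap.ext
  intro w
  rw [LinearMap.compl₁₂_apply, frm_apply, frm_apply]
  change ((w : Y.ty → K) ∘ e) ⬝ᵥ (g *ᵥ ((v : Y.ty → K) ∘ e)) = _
  rw [key2 g h hg]
  simp only [dotProduct, Function.comp_apply]
  exact Equiv.sum_comp e fun b => (w : Y.ty → K) b * (h *ᵥ (v : Y.ty → K)) b

lemma rho_add_le (X : Ob Λ K) (g h : Matrix X.ty X.ty K) :
    rho X (g + h) ≤ rho X g + rho X h := by
  have h1 : frm X (g + h) = frm X g + frm X h := by
    apply LinearMap.ext
    intro v
    apply LinearMap.ext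
    intro w
    rw [LinearMap.add_apply, LinearMap.add_apply, frm_apply, frm_apply, frm_apply,
      Matrix.add_mulVec, dotProduct_add]
  rw [rho, h1]
  exact rk_add_le _ _

lemma rho_le_rank (X : Ob Λ K) (g : Matrix X.ty X.ty K) : rho X g ≤ g.rank := by
  have h1 : LinearMap.range (frm X g) ≤ (LinearMap.range g.mulVecLin).map
      ({ toFun := fun v => { toFun := fun w => (w : X.ty → K) ⬝ᵥ v
                             map_add' := fun w w' => by
                              rw [Submodule.coe_add, add_dotProduct]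
                             map_smul' := fun c w => by
                              rw [Submodule.coe_smul, smul_dotProduct]; rfl }
         map_add' := fun v v' => by
          apply LinearMap.ext; intro w
          exact dotProduct_add _ _ _
         map_smul' := fun c v => by
          apply LinearMap.ext; intro w
          exact dotProduct_smul _ _ _ } : (X.ty → K) →ₗ[K] (Inv (du X) →ₗ[K] K)) := by
    rintro _ ⟨v, rfl⟩
    exact ⟨g *ᵥ v, ⟨v, rfl⟩, rfl⟩
  exact (Submodule.finrank_mono h1).trans (Submodule.finrank_map_le _ _)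

/-- The operators of the category of two modules. -/
def cat (Z : Fin 2 → Ob Λ K) : Cat K (fun i => (Z i).ty → K) where
  p := fun _ => LinearMap.id
  p_sq := fun _ => rfl
  S := fun i j =>
    { carrier := {u | ∀ x v, u ((Z j).op x *ᵥ v) = (Z i).op x *ᵥ u v}
      zero_mem' := fun x v => by simp
      add_mem' := fun {a b} ha hb x v => by
        rw [LinearMap.add_apply, LinearMap.add_apply, ha, hb, Matrix.mulVec_add]
      smul_mem' := fun c a ha x v => by
        rw [LinearMap.smul_apply, LinearMap.smul_apply, ha, Matrix.mulVec_smul] }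
  one := fun _ _ _ => rfl
  mul := fun {i j k a b} ha hb x v => by
    change a (b _) = _
    rw [hb x v, ha x]
    rfl
  comm := fun _ => rfl

lemma mem_cat {Z : Fin 2 → Ob Λ K} {i j : Fin 2} {u : ((Z j).ty → K) →ₗ[K] ((Z i).ty → K)} :
    u ∈ (cat Z).S i j ↔ ∀ x v, u ((Z j).op x *ᵥ v) = (Z i).op x *ᵥ u v := Iff.rfl

lemma toLin_mem {Z : Fin 2 → Ob Λ K} {i j : Fin 2} {M : Matrix (Z i).ty (Z j).ty K} :
    M.toLin' ∈ (cat Z).S i j ↔ ∀ x, M * (Z j).op x = (Z i).op x * M := by
  rw [mem_cat]
  constructor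
  · intro h x
    apply Matrix.toLin'.injective
    apply LinearMap.ext
    intro v
    have := h x v
    rw [Matrix.toLin'_apply, Matrix.toLin'_apply, Matrix.mulVec_mulVec, Matrix.mulVec_mulVec] at this
    rw [Matrix.toLin'_apply, Matrix.toLin'_apply]
    exact this
  · intro h x v
    rw [Matrix.toLin'_apply, Matrix.toLin'_apply, Matrix.mulVec_mulVec, Matrix.mulVec_mulVec, h]

lemma inv_tn_du {X Y : Ob Λ K} {v : X.ty × Y.ty → K} :
    v ∈ Inv (tn X (du Y)) ↔ ∀ x, X.op x * (Matrix.of fun a b => v (a, b)) =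
      (Matrix.of fun a b => v (a, b)) * Y.op x := by
  rw [mem_Inv]
  refine forall_congr' fun x => ?_
  have h : ∀ a b, ((tn X (du Y)).op x *ᵥ v) (a, b) =
      (X.op x * (Matrix.of fun a b => v (a, b))) a b -
        ((Matrix.of fun a b => v (a, b)) * Y.op x) a b := by
    intro a b
    change ((X.op x ⊗ₖ (1 : Matrix Y.ty Y.ty K) + (1 : Matrix X.ty X.ty K) ⊗ₖ (-(Y.op x)ᵀ)) *ᵥ v)
      (a, b) = _
    rw [Matrix.add_mulVec, Pi.add_apply, Matrix.mulVec, Matrix.mulVec, dotProduct, dotProduct,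
      Fintype.sum_prod_type, Fintype.sum_prod_type, Matrix.mul_apply, Matrix.mul_apply,
      sub_eq_add_neg]
    congr 1
    · refine Finset.sum_congr rfl fun a' _ => ?_
      rw [Finset.sum_eq_single b]
      · simp [Matrix.kroneckerMap_apply]
      · intro b' _ hb'
        simp [Matrix.kroneckerMap_apply, Matrix.one_apply_ne hb'.symm]
      · intro h; exact absurd (Finset.mem_univ _) h
    · rw [Finset.sum_eq_single a]
      · rw [← Finset.sum_neg_distrib]
        refine Finset.sum_congr rfl fun b' _ => ?_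
        simp only [Matrix.kroneckerMap_apply, Matrix.one_apply_eq, one_mul, Matrix.neg_apply,
          Matrix.transpose_apply, Matrix.of_apply]
        ring
      · intro a' _ ha'
        simp [Matrix.kroneckerMap_apply, Matrix.one_apply_ne ha'.symm]
      · intro h; exact absurd (Finset.mem_univ _) h
  constructor
  · intro h0
    ext a b
    have h1 := h a b
    rw [h0] at h1
    exact (sub_eq_zero.1 h1.symm)
  · intro h0
    funext ⟨a, b⟩
    have h1 := h a b
    rw [h1, h0, sub_self]
    rfl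

lemma inv_du_tn {X Y : Ob Λ K} {v : X.ty × Y.ty → K} :
    v ∈ Inv (du (tn X (du Y))) ↔ ∀ x, (Matrix.of fun b a => v (a, b)) * X.op x =
      Y.op x * (Matrix.of fun b a => v (a, b)) := by
  rw [mem_Inv]
  refine forall_congr' fun x => ?_
  have h : ∀ a b, ((du (tn X (du Y))).op x *ᵥ v) (a, b) =
      (Y.op x * (Matrix.of fun b a => v (a, b))) b a -
        ((Matrix.of fun b a => v (a, b)) * X.op x) b a := by
    intro a b
    change ((-(X.op x ⊗ₖ (1 : Matrix Y.ty Y.ty K) +
      (1 : Matrix X.ty X.ty K) ⊗ₖ (-(Y.op x)ᵀ))ᵀ) *ᵥ v) (a, b) = _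
    rw [Matrix.neg_mulVec, Matrix.transpose_add, Matrix.add_mulVec, Pi.neg_apply, Pi.add_apply,
      Matrix.mulVec, Matrix.mulVec, dotProduct, dotProduct,
      Fintype.sum_prod_type, Fintype.sum_prod_type, Matrix.mul_apply, Matrix.mul_apply]
    rw [sub_eq_add_neg, add_comm (∑ j, Y.op x b j * _), neg_add]
    congr 1
    · congr 1
      refine Finset.sum_congr rfl fun a' _ => ?_
      rw [Finset.sum_eq_single b]
      · simp only [Matrix.transpose_apply, Matrix.kroneckerMap_apply, Matrix.one_apply_eq, mul_one,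
          Matrix.of_apply]
        ring
      · intro b' _ hb'
        simp [Matrix.kroneckerMap_apply, Matrix.one_apply_ne hb']
      · intro h; exact absurd (Finset.mem_univ _) h
    · rw [Finset.sum_eq_single a]
      · rw [← Finset.sum_neg_distrib]
        refine Finset.sum_congr rfl fun b' _ => ?_
        simp only [Matrix.kroneckerMap_apply, Matrix.one_apply_eq, one_mul, Matrix.neg_apply,
          Matrix.transpose_apply, Matrix.of_apply]
        ring
      · intro a' _ ha'
        simp [Matrix.kroneckerMap_apply, Matrix.one_apply_ne ha']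
      · intro h; exact absurd (Finset.mem_univ _) h
  constructor
  · intro h0
    ext b a
    have h1 := h a b
    rw [h0] at h1
    exact (sub_eq_zero.1 h1.symm).symm
  · intro h0
    funext ⟨a, b⟩
    have h1 := h a b
    rw [h1, h0, sub_self]
    rfl

/-- The ranks of the forms of the category are ranks of forms on invariants. -/
lemma rk_cat (Z : Fin 2 → Ob Λ K) (i j : Fin 2) (g : Matrix (Z i).ty (Z i).ty K)
    (g' : Matrix (Z j).ty (Z j).ty K) :
    rk (A := (cat Z).S i j) (B := (cat Z).S j i) ((cat Z).B i j g.toLin' g'.toLin') =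
      rho (tn (Z i) (du (Z j))) (g ⊗ₖ g'ᵀ) := by
  let F : (cat Z).S i j →ₗ[K] Inv (tn (Z i) (du (Z j))) :=
    { toFun := fun u => ⟨fun p => LinearMap.toMatrix' (u : ((Z j).ty → K) →ₗ[K] ((Z i).ty → K))
        p.1 p.2, by
        rw [inv_tn_du]
        intro x
        have h := u.2
        rw [← Matrix.toLin'_toMatrix' (u : ((Z j).ty → K) →ₗ[K] ((Z i).ty → K)), toLin_mem] at h
        exact (h x).symm⟩
      map_add' := fun a b => Subtype.ext (funext fun p => by
        simp only [Submodule.coe_add, map_add, Pi.add_apply]; rfl)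
      map_smul' := fun c a => Subtype.ext (funext fun p => by
        simp only [Submodule.coe_smul, map_smul, Pi.smul_apply]; rfl) }
  let G : (cat Z).S j i →ₗ[K] Inv (du (tn (Z i) (du (Z j)))) :=
    { toFun := fun u => ⟨fun p => LinearMap.toMatrix' (u : ((Z i).ty → K) →ₗ[K] ((Z j).ty → K))
        p.2 p.1, by
        rw [inv_du_tn]
        intro x
        have h := u.2
        rw [← Matrix.toLin'_toMatrix' (u : ((Z i).ty → K) →ₗ[K] ((Z j).ty → K)), toLin_mem] at h
        exact h x⟩
      map_add' := fun a b => Subtype.ext (funext fun p => by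
        simp only [Submodule.coe_add, map_add, Pi.add_apply]; rfl)
      map_smul' := fun c a => Subtype.ext (funext fun p => by
        simp only [Submodule.coe_smul, map_smul, Pi.smul_apply]; rfl) }
  have hF : Function.Surjective F := by
    rintro ⟨v, hv⟩
    refine ⟨⟨(Matrix.of fun a b => v (a, b)).toLin', ?_⟩, Subtype.ext ?_⟩
    · rw [toLin_mem]
      exact fun x => (inv_tn_du.1 hv x).symm
    · funext p
      change LinearMap.toMatrix' (Matrix.toLin' _) p.1 p.2 = _
      rw [LinearMap.toMatrix'_toLin']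
      rfl
  have hG : Function.Surjective G := by
    rintro ⟨v, hv⟩
    refine ⟨⟨(Matrix.of fun b a => v (a, b)).toLin', ?_⟩, Subtype.ext ?_⟩
    · rw [toLin_mem]
      exact fun x => inv_du_tn.1 hv x
    · funext p
      change LinearMap.toMatrix' (Matrix.toLin' _) p.2 p.1 = _
      rw [LinearMap.toMatrix'_toLin']
      rfl
  have key := rk_comp (A' := (cat Z).S i j) (B' := (cat Z).S j i)
    (frm (tn (Z i) (du (Z j))) (g ⊗ₖ g'ᵀ)) (f := F) (g := G) hF hG
  rw [rho, ← key]
  congr 1
  apply LinearMap.ext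
  intro u
  apply LinearMap.ext
  intro v
  rw [LinearMap.compl₁₂_apply, frm_apply, Cat.B_apply]
  change LinearMap.trace K _ (g.toLin' ∘ₗ (u : ((Z j).ty → K) →ₗ[K] ((Z i).ty → K)) ∘ₗ
    g'.toLin' ∘ₗ (v : ((Z i).ty → K) →ₗ[K] ((Z j).ty → K))) = _
  set U := LinearMap.toMatrix' (u : ((Z j).ty → K) →ₗ[K] ((Z i).ty → K)) with hU
  set V := LinearMap.toMatrix' (v : ((Z i).ty → K) →ₗ[K] ((Z j).ty → K)) with hV
  have eu : (u : ((Z j).ty → K) →ₗ[K] ((Z i).ty → K)) = U.toLin' := (Matrix.toLin'_toMatrix' _).symm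
  have ev : (v : ((Z i).ty → K) →ₗ[K] ((Z j).ty → K)) = V.toLin' := (Matrix.toLin'_toMatrix' _).symm
  rw [eu, ev, ← Matrix.toLin'_mul, ← Matrix.toLin'_mul, ← Matrix.toLin'_mul, Matrix.trace_toLin'_eq]
  change (g * (U * (g' * V))).trace = (fun p : (Z i).ty × (Z j).ty => V p.2 p.1) ⬝ᵥ
    ((g ⊗ₖ g'ᵀ) *ᵥ fun p : (Z i).ty × (Z j).ty => U p.1 p.2)
  simp only [Matrix.trace, Matrix.diag, Matrix.mul_apply, dotProduct, Matrix.mulVec,
    Fintype.sum_prod_type, Matrix.kroneckerMap_apply, Matrix.transpose_apply, Finset.mul_sum]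
  refine Finset.sum_congr rfl fun a _ => ?_
  -- LHS: sum over a', b, b' of g a a' * (U a' b * (g' b b' * V b' a))
  calc ∑ a', ∑ b, ∑ b', g a a' * (U a' b * (g' b b' * V b' a))
      = ∑ a', ∑ b', ∑ b, g a a' * (U a' b * (g' b b' * V b' a)) :=
        Finset.sum_congr rfl fun a' _ => Finset.sum_comm
    _ = ∑ b', ∑ a', ∑ b, g a a' * (U a' b * (g' b b' * V b' a)) := Finset.sum_comm
    _ = _ := by
        refine Finset.sum_congr rfl fun b' _ => Finset.sum_congr rfl fun a' _ =>
          Finset.sum_congr rfl fun b _ => ?_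
        ring

lemma cs_aux [CharZero K] (Z : Fin 2 → Ob Λ K) (i j : Fin 2) {g : Matrix (Z i).ty (Z i).ty K}
    {h : Matrix (Z j).ty (Z j).ty K}
    (hg : ∀ x, g * (Z i).op x = (Z i).op x * g) (hgg : g * g = g)
    (hh : ∀ x, h * (Z j).op x = (Z j).op x * h) (hhh : h * h = h) :
    rho (tn (Z i) (du (Z j))) (g ⊗ₖ hᵀ) ^ 2 ≤
      rho (tn (Z i) (du (Z i))) (g ⊗ₖ gᵀ) * rho (tn (Z j) (du (Z j))) (h ⊗ₖ hᵀ) := by
  have h1 := (cat Z).rk_B_sq_le' (i := i) (j := j) (g := g.toLin')
    (toLin_mem (Z := Z) |>.2 hg)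
    ((Matrix.toLin'_mul g g).symm.trans (congrArg _ hgg)) (g' := h.toLin')
    (toLin_mem (Z := Z) |>.2 hh)
    ((Matrix.toLin'_mul h h).symm.trans (congrArg _ hhh))
  rw [← rk_cat Z i j g h, ← rk_cat Z i i g g, ← rk_cat Z j j h h]
  exact h1

/-- **The Cauchy-Schwarz inequality.** -/
theorem cs [CharZero K] (X Y : Ob Λ K) {g : Matrix X.ty X.ty K} {h : Matrix Y.ty Y.ty K}
    (hg : ∀ x, g * X.op x = X.op x * g) (hgg : g * g = g)
    (hh : ∀ x, h * Y.op x = Y.op x * h) (hhh : h * h = h) :
    rho (tn X (du Y)) (g ⊗ₖ hᵀ) ^ 2 ≤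
      rho (tn X (du X)) (g ⊗ₖ gᵀ) * rho (tn Y (du Y)) (h ⊗ₖ hᵀ) :=
  cs_aux ![X, Y] 0 1 hg hgg hh hhh

end Pool.Agent.D0H78.LG
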