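import Pool.Agent.D0H78.LG.Pow

/-!
# A vector which is not invariant: the powers of the vector generate a strictly increasing chain
-/

set_option autoImplicit false
set_option linter.unusedSectionVars false

open Matrix Module PowerSeries
open scoped Kronecker

namespace Pool.Agent.D0H78.LG

open Pool.Agent.D0H93.MT (tder)

variable {Λ K : Type} [Field K]

/-- The exponential series `exp (t x) v`. -/
noncomputable def Ex (X : Ob Λ K) (x : Λ) (v : X.ty → K) (a : X.ty) : K⟦X⟧ :=
  PowerSeries.mk fun s => ((X.op x ^ s) *ᵥ v) a / (s.factorial : K)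

lemma coeff_Ex (X : Ob Λ K) (x : Λ) (v : X.ty → K) (a : X.ty) (s : ℕ) :
    PowerSeries.coeff s (Ex X x v a) = ((X.op x ^ s) *ᵥ v) a / (s.factorial : K) :=
  PowerSeries.coeff_mk _ _

lemma Ex_add (X : Ob Λ K) (x : Λ) (v w : X.ty → K) (a : X.ty) :
    Ex X x (v + w) a = Ex X x v a + Ex X x w a := by
  ext s
  rw [map_add, coeff_Ex, coeff_Ex, coeff_Ex, Matrix.mulVec_add, Pi.add_apply, add_div]

lemma Ex_smul (X : Ob Λ K) (x : Λ) (c : K) (v : X.ty → K) (a : X.ty) :
    Ex X x (c • v) a = c • Ex X x v a := by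
  ext s
  rw [map_smul, coeff_Ex, coeff_Ex, Matrix.mulVec_smul, Pi.smul_apply, smul_eq_mul, smul_eq_mul,
    mul_div_assoc]

lemma Ex_zero (X : Ob Λ K) (x : Λ) (a : X.ty) : Ex X x 0 a = 0 := by
  ext s
  rw [coeff_Ex, Matrix.mulVec_zero, Pi.zero_apply, zero_div, map_zero]

/-- Equivariant maps. -/
lemma Ex_map {X Y : Ob Λ K} {x : Λ} {M : Matrix Y.ty X.ty K} (hM : M * X.op x = Y.op x * M)
    (v : X.ty → K) (b : Y.ty) : Ex Y x (M *ᵥ v) b = ∑ a, M b a • Ex X x v a := by
  have h : ∀ s : ℕ, Y.op x ^ s * M = M * X.op x ^ s := by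
    intro s
    induction s with
    | zero => rw [pow_zero, pow_zero, Matrix.one_mul, Matrix.mul_one]
    | succ s ih => rw [pow_succ, pow_succ, Matrix.mul_assoc, ← hM, ← Matrix.mul_assoc, ih,
        Matrix.mul_assoc]
  ext s
  rw [map_sum, coeff_Ex, Matrix.mulVec_mulVec, h, ← Matrix.mulVec_mulVec]
  simp only [map_smul, coeff_Ex, smul_eq_mul]
  rw [Matrix.mulVec, dotProduct, Finset.sum_div]
  exact Finset.sum_congr rfl fun a _ => mul_div_assoc _ _ _

variable [CharZero K]

/-- The exponential series solves the differential equation. -/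
lemma Ex_der (X : Ob Λ K) (x : Λ) (v : X.ty → K) (a : X.ty) (s : ℕ) :
    PowerSeries.coeff (s + 1) (Ex X x v a) * (s + 1) =
      ∑ b, X.op x a b * PowerSeries.coeff s (Ex X x v b) := by
  simp only [coeff_Ex]
  have h1 : ((s : K) + 1) ≠ 0 := Nat.cast_add_one_ne_zero s
  rw [pow_succ', ← Matrix.mulVec_mulVec, Nat.factorial_succ, Nat.cast_mul, Nat.cast_succ]
  rw [div_mul_eq_mul_div, mul_comm ((s : K) + 1) (s.factorial : K), mul_div_mul_right _ _ h1,
    Matrix.mulVec, dotProduct, Finset.sum_div]
  exact Finset.sum_congr rfl fun b _ => mul_div_assoc _ _ _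

lemma uniq {α : Type} [Fintype α] (M : Matrix α α K) {F G : α → K⟦X⟧}
    (hF : ∀ a s, PowerSeries.coeff (s + 1) (F a) * (s + 1) =
      ∑ b, M a b * PowerSeries.coeff s (F b))
    (hG : ∀ a s, PowerSeries.coeff (s + 1) (G a) * (s + 1) =
      ∑ b, M a b * PowerSeries.coeff s (G b))
    (h0 : ∀ a, PowerSeries.coeff 0 (F a) = PowerSeries.coeff 0 (G a)) (a : α) : F a = G a := by
  have key : ∀ s a, PowerSeries.coeff s (F a) = PowerSeries.coeff s (G a) := by
    intro s
    induction s with
    | zero => exact h0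
    | succ s ih =>
      intro a
      have h1 : ((s : K) + 1) ≠ 0 := Nat.cast_add_one_ne_zero s
      apply mul_right_cancel₀ h1
      rw [hF, hG]
      exact Finset.sum_congr rfl fun b _ => by rw [ih]
  ext s
  exact key s a

lemma coeff_mul_der (f g : K⟦X⟧) (s : ℕ) :
    PowerSeries.coeff (s + 1) (f * g) * (s + 1) =
      PowerSeries.coeff s (PowerSeries.derivative K f * g + f * PowerSeries.derivative K g) := by
  have h := PowerSeries.coeff_derivative (f * g) s
  rw [← h, Derivation.leibniz, smul_eq_mul, smul_eq_mul]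
  congr 1
  ring

/-- Multiplicativity. -/
lemma Ex_tn (X Y : Ob Λ K) (x : Λ) (v : X.ty → K) (w : Y.ty → K) (a : X.ty) (b : Y.ty) :
    Ex (tn X Y) x (fun p : X.ty × Y.ty => v p.1 * w p.2) (a, b) = Ex X x v a * Ex Y x w b := by
  refine uniq (α := X.ty × Y.ty) ((tn X Y).op x)
    (F := Ex (tn X Y) x (fun p : X.ty × Y.ty => v p.1 * w p.2))
    (G := fun p : X.ty × Y.ty => Ex X x v p.1 * Ex Y x w p.2)
    (fun p s => Ex_der (tn X Y) x _ p s) ?_ ?_ (a, b)
  · rintro ⟨a, b⟩ s
    have hX : ∀ a, PowerSeries.derivative K (Ex X x v a) = ∑ c, X.op x a c • Ex X x v c := by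
      intro a
      ext s
      rw [PowerSeries.coeff_derivative, Ex_der, map_sum]
      exact Finset.sum_congr rfl fun c _ => by rw [map_smul, smul_eq_mul]
    have hY : ∀ b, PowerSeries.derivative K (Ex Y x w b) = ∑ c, Y.op x b c • Ex Y x w c := by
      intro a
      ext s
      rw [PowerSeries.coeff_derivative, Ex_der, map_sum]
      exact Finset.sum_congr rfl fun c _ => by rw [map_smul, smul_eq_mul]
    rw [Fintype.sum_prod_type]
    change PowerSeries.coeff (s + 1) (Ex X x v a * Ex Y x w b) * (s + 1) =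
      ∑ c, ∑ d, (X.op x a c * (1 : Matrix Y.ty Y.ty K) b d +
        (1 : Matrix X.ty X.ty K) a c * Y.op x b d) *
          PowerSeries.coeff s (Ex X x v c * Ex Y x w d)
    rw [coeff_mul_der, hX, hY]
    simp only [add_mul, Finset.sum_add_distrib]
    rw [map_add]
    congr 1
    · rw [Finset.sum_mul, map_sum]
      refine Finset.sum_congr rfl fun c _ => ?_
      rw [Finset.sum_eq_single b]
      · rw [Matrix.one_apply_eq, mul_one, smul_mul_assoc, map_smul, smul_eq_mul]
      · intro d _ hd
        rw [Matrix.one_apply_ne hd.symm, mul_zero, zero_mul]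
      · intro h; exact absurd (Finset.mem_univ _) h
    · rw [Finset.sum_eq_single a]
      · rw [Finset.mul_sum, map_sum]
        refine Finset.sum_congr rfl fun d _ => ?_
        rw [Matrix.one_apply_eq, one_mul, mul_smul_comm, map_smul, smul_eq_mul]
      · intro c _ hc
        refine Finset.sum_eq_zero fun d _ => ?_
        rw [Matrix.one_apply_ne hc.symm, zero_mul, zero_mul]
      · intro h; exact absurd (Finset.mem_univ _) h
  · rintro ⟨a, b⟩
    dsimp only
    rw [PowerSeries.coeff_zero_eq_constantCoeff_apply, PowerSeries.coeff_zero_eq_constantCoeff_apply,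
      map_mul, ← PowerSeries.coeff_zero_eq_constantCoeff_apply,
      ← PowerSeries.coeff_zero_eq_constantCoeff_apply,
      ← PowerSeries.coeff_zero_eq_constantCoeff_apply, coeff_Ex, coeff_Ex, coeff_Ex]
    simp only [pow_zero, Matrix.one_mulVec, Nat.factorial_zero, Nat.cast_one, div_one]

/-- An integral power series is constant. -/
lemma coeff_one_of_integral {f : K⟦X⟧} (hf : IsIntegral K f) : PowerSeries.coeff 1 f = 0 := by
  set g : K⟦X⟧ := f - PowerSeries.C (PowerSeries.constantCoeff f) with hg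
  have hgi : IsIntegral K g := hf.sub (isIntegral_algebraMap (R := K) (A := K⟦X⟧)
    (x := PowerSeries.constantCoeff f))
  have h0 : PowerSeries.constantCoeff g = 0 := by
    rw [hg, map_sub, PowerSeries.constantCoeff_C, sub_self]
  have hg0 : g = 0 := by
    by_contra hne
    apply minpoly.coeff_zero_ne_zero hgi hne
    have h1 := congrArg (PowerSeries.constantCoeff (R := K)) (minpoly.aeval K g)
    rw [map_zero, Polynomial.aeval_def, Polynomial.hom_eval₂, h0, Polynomial.eval₂_at_zero] at h1
    have h2 : ∀ r : K, (PowerSeries.constantCoeff (R := K)) (algebraMap K K⟦X⟧ r) = r :=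
      fun r => PowerSeries.constantCoeff_C r
    rw [RingHom.comp_apply, h2] at h1
    exact h1
  have h1 : f = PowerSeries.C (PowerSeries.constantCoeff f) := sub_eq_zero.1 hg0
  rw [h1, PowerSeries.coeff_C, if_neg one_ne_zero]

end Pool.Agent.D0H78.LG
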