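import Pool.Agent.D0H78.LG.Sub
import Pool.Agent.D0H93.MT.Main

/-!
# The trace form on the endomorphisms of the tensor powers of a polarized Hodge structure
-/

set_option autoImplicit false
set_option linter.unusedSectionVars false

open Matrix Module

namespace Pool.Agent.D0H78.LG

open Pool.Agent.D0H93.MT

variable {ι : Type} [Fintype ι] [DecidableEq ι]

section Ring

variable {K : Type} [Field K]

lemma tder_transpose (n : ℕ) (x : Matrix ι ι K) : tder n xᵀ = (tder n x)ᵀ := by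
  ext I J
  simp only [tder, Matrix.of_apply, Matrix.transpose_apply]
  refine Finset.sum_congr rfl fun k _ => ?_
  have : (∀ l, l ≠ k → I l = J l) ↔ ∀ l, l ≠ k → J l = I l :=
    ⟨fun h l hl => (h l hl).symm, fun h l hl => (h l hl).symm⟩
  simp only [this]

lemma tpow_transpose (n : ℕ) (x : Matrix ι ι K) : tpow n xᵀ = (tpow n x)ᵀ := rfl

lemma kills_transpose {n : ℕ} {x : Matrix ι ι K} {c : Matrix (Fin n → ι) (Fin n → ι) K}
    (h : Kills x c) : Kills xᵀ cᵀ := by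
  unfold Kills at *
  rw [tder_transpose, ← Matrix.transpose_mul, ← Matrix.transpose_mul, h]

/-- The adjoint for the form `Q` of an endomorphism killed by `N` is killed by `N`. -/
lemma adjoint_mem {N : Submodule K (Matrix ι ι K)} {Q : Matrix ι ι K} (hQ : IsUnit Q.det)
    (hmul : ∀ x ∈ N, ∃ μ : K, xᵀ * Q + Q * x = μ • Q) {n : ℕ}
    {c : Matrix (Fin n → ι) (Fin n → ι) K} (hc : c ∈ kil N n) :
    tpow n Q⁻¹ * cᵀ * tpow n Q ∈ kil N n := by
  intro x hx
  obtain ⟨μ, hμ⟩ := hmul x hx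
  have h1 : Q⁻¹ * xᵀ * Q = μ • 1 - x := by
    have h2 : xᵀ * Q = Q * (μ • 1 - x) := by
      rw [mul_sub, mul_smul_comm, mul_one, ← hμ, add_sub_cancel_right]
    rw [mul_assoc, h2, ← mul_assoc, Matrix.nonsing_inv_mul _ hQ, one_mul]
  have h2 := (kills_transpose (hc x hx)).conj (Matrix.nonsing_inv_mul _ hQ)
    (Matrix.mul_nonsing_inv _ hQ)
  rw [h1] at h2
  have h3 : x = μ • 1 + (-1 : K) • (μ • 1 - x) := by
    rw [neg_smul, one_smul]; abel
  rw [h3]
  exact ((Kills.one _).smul μ).add (h2.smul (-1))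

end Ring

variable {w : ℤ} {S : HodgeStructure ι w}

lemma sign_sq (w : ℤ) {K : Type} [Field K] : ((-1 : K) ^ w) * (-1 : K) ^ w = 1 := by
  rw [← mul_zpow, neg_one_mul, neg_neg, _root_.one_zpow]

lemma h_I_sq (S : HodgeStructure ι w) : S.h Complex.I * S.h Complex.I = (-1 : ℂ) ^ w • 1 := by
  obtain ⟨B, B', p, hB, hB', hh⟩ := S.exists_basis
  have h1 : (B * diagonal (fun i => Complex.I ^ p i * (starRingEnd ℂ Complex.I) ^ (w - p i)) * B') *
      (B * diagonal (fun i => Complex.I ^ p i * (starRingEnd ℂ Complex.I) ^ (w - p i)) * B') =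
      B * (diagonal (fun i => Complex.I ^ p i * (starRingEnd ℂ Complex.I) ^ (w - p i)) * (B' * B) *
      diagonal (fun i => Complex.I ^ p i * (starRingEnd ℂ Complex.I) ^ (w - p i))) * B' := by
    simp only [mul_assoc]
  rw [hh _ Complex.I_ne_zero, h1, hB', mul_one, diagonal_mul_diagonal]
  have h2 : (fun i => Complex.I ^ p i * (starRingEnd ℂ Complex.I) ^ (w - p i) *
      (Complex.I ^ p i * (starRingEnd ℂ Complex.I) ^ (w - p i))) = fun _ : ι => (-1 : ℂ) ^ w := by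
    funext i
    have h3 : Complex.I ^ p i * (starRingEnd ℂ Complex.I) ^ (w - p i) *
      (Complex.I ^ p i * (starRingEnd ℂ Complex.I) ^ (w - p i)) =
      (Complex.I * Complex.I) ^ p i *
        ((starRingEnd ℂ Complex.I) * (starRingEnd ℂ Complex.I)) ^ (w - p i) := by
      rw [mul_zpow, mul_zpow]; ring
    rw [h3, Complex.conj_I, neg_mul_neg, Complex.I_mul_I, ← zpow_add₀ (by norm_num)]
    congr 1
    ring
  have h3 : (diagonal fun _ : ι => (-1 : ℂ) ^ w : Matrix ι ι ℂ) = (-1 : ℂ) ^ w • 1 := by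
    rw [Matrix.smul_one_eq_diagonal]
  rw [h2, h3, mul_smul_comm, smul_mul_assoc, mul_one, hB]

/-- The real Weil operator. -/
noncomputable def hR (S : HodgeStructure ι w) : Matrix ι ι ℝ := (S.h Complex.I).map Complex.re

abbrev toC {m m' : Type} (M : Matrix m m' ℝ) : Matrix m m' ℂ := M.map fun x => (x : ℂ)

lemma toC_inj {m m' : Type} {M N : Matrix m m' ℝ} (h : toC M = toC N) : M = N := by
  ext i j
  have := congrFun (congrFun h i) j
  simpa using this

lemma toC_mul {m m' m'' : Type} [Fintype m'] (M : Matrix m m' ℝ) (N : Matrix m' m'' ℝ) :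
    toC (M * N) = toC M * toC N := by
  ext i j
  simp [Matrix.mul_apply]

lemma toC_hR (S : HodgeStructure ι w) : toC (hR S) = S.h Complex.I := by
  ext i j
  have h := congrFun (congrFun (S.real Complex.I Complex.I_ne_zero) i) j
  rw [Matrix.map_apply] at h
  simp only [hR, Matrix.map_apply]
  exact (Complex.conj_eq_iff_re.1 h)

lemma toC_bc {m m' : Type} (M : Matrix m m' ℚ) : toC (bc ℝ M) = bc ℂ M := by
  ext i j
  simp

lemma toC_tpow (n : ℕ) (M : Matrix ι ι ℝ) : toC (tpow n M) = tpow n (toC M) := by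
  ext I J
  simp [tpow]

lemma toC_transpose {m m' : Type} (M : Matrix m m' ℝ) : toC Mᵀ = (toC M)ᵀ := rfl

lemma hR_sq (S : HodgeStructure ι w) : hR S * hR S = (-1 : ℝ) ^ w • 1 := by
  apply toC_inj
  rw [toC_mul, toC_hR, h_I_sq]
  ext i j
  simp only [Matrix.smul_apply, Matrix.map_apply, smul_eq_mul]
  by_cases h : i = j
  · subst h; simp
  · simp [Matrix.one_apply_ne h]

variable {Q : Matrix ι ι ℚ}

lemma hR_compat (hQ : S.IsPolarization Q) : (hR S)ᵀ * bc ℝ Q * hR S = bc ℝ Q := by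
  apply toC_inj
  rw [toC_mul, toC_mul, toC_transpose, toC_hR, toC_bc, hQ.compat _ Complex.I_ne_zero,
    Complex.conj_I, mul_neg, Complex.I_mul_I, neg_neg, _root_.one_zpow, one_smul]

/-- The Gram matrix of the form `Q(Cu, v)`. -/
noncomputable def gram (S : HodgeStructure ι w) (Q : Matrix ι ι ℚ) : Matrix ι ι ℝ :=
  (hR S)ᵀ * bc ℝ Q

lemma gram_eq (hQ : S.IsPolarization Q) : gram S Q = (-1 : ℝ) ^ w • (bc ℝ Q * hR S) := by
  have h1 := hR_compat hQ
  have h2 : (hR S)ᵀ * bc ℝ Q * (hR S * hR S) = bc ℝ Q * hR S := by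
    rw [← mul_assoc, h1]
  rw [hR_sq, mul_smul_comm, mul_one] at h2
  rw [gram, ← h2, smul_smul, sign_sq, one_smul]

lemma gram_symm (hQ : S.IsPolarization Q) : (gram S Q)ᵀ = gram S Q := by
  conv_rhs => rw [gram_eq hQ]
  have h1 : (bc ℝ Q)ᵀ = (-1 : ℝ) ^ w • bc ℝ Q := by
    have h2 : (bc ℝ Q)ᵀ = bc ℝ Qᵀ := rfl
    rw [h2, hQ.sym]
    ext i j
    simp
  rw [gram, Matrix.transpose_mul, Matrix.transpose_transpose, h1, smul_mul_assoc]

lemma gram_posDef (hQ : S.IsPolarization Q) : (gram S Q).PosDef := by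
  refine Matrix.PosDef.of_dotProduct_mulVec_pos ?_ fun u hu => ?_
  · rw [Matrix.IsHermitian, Matrix.conjTranspose_eq_transpose_of_trivial]
    exact gram_symm hQ
  · have h1 := hQ.pos u hu
    have h2 : S.form Q u u = ((star u ⬝ᵥ gram S Q *ᵥ u : ℝ) : ℂ) := by
      have h3 : u ⬝ᵥ (hR S)ᵀ *ᵥ bc ℝ Q *ᵥ u = (hR S *ᵥ u) ⬝ᵥ (bc ℝ Q *ᵥ u) := by
        rw [Matrix.dotProduct_mulVec, Matrix.vecMul_transpose]
      rw [HodgeStructure.form, gram, ← Matrix.mulVec_mulVec, star_trivial, h3, ← toC_hR, ← toC_bc]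
      simp only [dotProduct, Matrix.mulVec, Matrix.map_apply]
      push_cast
      rfl
    rw [h2, Complex.ofReal_re] at h1
    exact h1

open scoped MatrixOrder in
lemma exists_factor (hQ : S.IsPolarization Q) :
    ∃ B : Matrix ι ι ℝ, IsUnit B.det ∧ gram S Q = Bᵀ * B := by
  have h := gram_posDef hQ
  obtain ⟨B, hB⟩ := CStarAlgebra.nonneg_iff_eq_star_mul_self.mp h.posSemidef.nonneg
  rw [star_eq_conjTranspose, Matrix.conjTranspose_eq_transpose_of_trivial] at hB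
  refine ⟨B, ?_, hB⟩
  have h1 := h.det_pos
  rw [hB, Matrix.det_mul] at h1
  rw [isUnit_iff_ne_zero]
  intro h2
  rw [h2, mul_zero] at h1
  exact lt_irrefl _ h1

/-- **The trace form is nondegenerate**, by the positivity of the involution of the
polarization. -/
theorem nd_of_pol (hQ : S.IsPolarization Q) {N : Submodule ℚ (Matrix ι ι ℚ)}
    (hmul : ∀ x ∈ N, ∃ μ : ℚ, xᵀ * Q + Q * x = μ • Q)
    (hH : ∀ n, ∀ c ∈ kil N n, S.IsHodge n c) (n : ℕ) : NdS N n := by
  intro c hc h0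
  have hdet : IsUnit Q.det := isUnit_iff_ne_zero.2 (HodgeStructure.det_ne_zero hQ)
  set c' := tpow n Q⁻¹ * cᵀ * tpow n Q with hc'
  have h1 := h0 c' (adjoint_mem hdet hmul hc)
  obtain ⟨B, hB, hG⟩ := exists_factor hQ
  -- `c` commutes with the Weil operator
  have h2 : tpow n (hR S) * bc ℝ c = bc ℝ c * tpow n (hR S) := by
    apply toC_inj
    rw [toC_mul, toC_mul, toC_tpow, toC_hR, toC_bc]
    exact hH n c hc _ Complex.I_ne_zero
  have h3 : tpow n Q * c' = cᵀ * tpow n Q := by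
    rw [hc', ← mul_assoc, ← mul_assoc, ← tpow_mul, Matrix.mul_nonsing_inv _ hdet, tpow_one,
      one_mul]
  have h4 : tpow n (bc ℝ Q) * bc ℝ c' = (bc ℝ c)ᵀ * tpow n (bc ℝ Q) := by
    rw [tpow_bc, ← bc_mul, h3, bc_mul]
    rfl
  have h5 : tpow n (gram S Q) * bc ℝ c' = (bc ℝ c)ᵀ * tpow n (gram S Q) := by
    have h6 : (tpow n (hR S))ᵀ * (bc ℝ c)ᵀ = (bc ℝ c)ᵀ * (tpow n (hR S))ᵀ := by
      rw [← Matrix.transpose_mul, ← Matrix.transpose_mul, h2]
    rw [gram, tpow_mul, tpow_transpose, mul_assoc, h4, ← mul_assoc, h6, mul_assoc]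
  have hBn : tpow n B⁻¹ * tpow n B = 1 := by
    rw [← tpow_mul, Matrix.nonsing_inv_mul _ hB, tpow_one]
  have hBn' : tpow n B * tpow n B⁻¹ = 1 := by
    rw [← tpow_mul, Matrix.mul_nonsing_inv _ hB, tpow_one]
  set T := tpow n B * bc ℝ c * tpow n B⁻¹ with hT
  have h6 : tpow n B * bc ℝ c' * tpow n B⁻¹ = Tᵀ := by
    have h7 : (tpow n B)ᵀ * (tpow n B * bc ℝ c') = (bc ℝ c)ᵀ * (tpow n B)ᵀ * tpow n B := by
      rw [← mul_assoc, ← tpow_transpose, ← tpow_mul, ← hG, h5, hG, tpow_mul, mul_assoc]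
    have h8 : (tpow n B⁻¹)ᵀ * (tpow n B)ᵀ = 1 := by
      rw [← Matrix.transpose_mul, hBn', Matrix.transpose_one]
    have h9 : tpow n B * bc ℝ c' = (tpow n B⁻¹)ᵀ * (bc ℝ c)ᵀ * (tpow n B)ᵀ * tpow n B := by
      calc tpow n B * bc ℝ c' = ((tpow n B⁻¹)ᵀ * (tpow n B)ᵀ) * (tpow n B * bc ℝ c') := by
            rw [h8, one_mul]
        _ = (tpow n B⁻¹)ᵀ * ((tpow n B)ᵀ * (tpow n B * bc ℝ c')) := by rw [mul_assoc]
        _ = _ := by rw [h7]; simp only [mul_assoc]
    rw [h9, hT, Matrix.transpose_mul, Matrix.transpose_mul, mul_assoc, hBn', mul_one, mul_assoc]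
  have h7 : (T * Tᵀ).trace = 0 := by
    rw [← h6, hT]
    have e : tpow n B * bc ℝ c * tpow n B⁻¹ * (tpow n B * bc ℝ c' * tpow n B⁻¹) =
        tpow n B * (bc ℝ (c * c')) * tpow n B⁻¹ := by
      calc _ = tpow n B * bc ℝ c * (tpow n B⁻¹ * tpow n B) * bc ℝ c' * tpow n B⁻¹ := by
            simp only [mul_assoc]
        _ = _ := by rw [hBn, mul_one, bc_mul c c']; simp only [mul_assoc]
    rw [e, mul_assoc, Matrix.trace_mul_comm, mul_assoc, hBn, mul_one]
    have e2 : (bc ℝ (c * c')).trace = algebraMap ℚ ℝ (c * c').trace := by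
      simp [Matrix.trace, Matrix.diag]
    rw [e2, h1, map_zero]
  have h8 : T = 0 := by
    have h9 := Matrix.trace_mul_conjTranspose_self_eq_zero_iff (A := T)
    rw [Matrix.conjTranspose_eq_transpose_of_trivial] at h9
    exact h9.1 h7
  have h9 : bc ℝ c = 0 := by
    calc bc ℝ c = (tpow n B⁻¹ * tpow n B) * bc ℝ c * (tpow n B⁻¹ * tpow n B) := by
          rw [hBn, one_mul, mul_one]
      _ = tpow n B⁻¹ * T * tpow n B := by rw [hT]; simp only [mul_assoc]
      _ = 0 := by rw [h8, mul_zero, zero_mul]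
  refine bc_injective (L := ℝ) ?_
  rw [h9]
  ext i j
  simp

end Pool.Agent.D0H78.LG
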