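import Pool.Agent.D0H78.LG.Bound
import Pool.Agent.D0H93.MT.Basic

/-!
# Tensor powers
-/

set_option autoImplicit false
set_option linter.unusedSectionVars false

open Matrix Module
open scoped Kronecker

namespace Pool.Agent.D0H78.LG

open Pool.Agent.Y133.Half (Cat rk rk_comp rk_add_le trace_idem span_perm)
open Pool.Agent.D0H93.MT (tder)

variable {ι : Type} [Fintype ι] [DecidableEq ι] {Λ K : Type} [Field K]

section append

variable {m n : ℕ}

lemma append_eq_iff {s s' : Fin m → ι} {t t' : Fin n → ι} :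
    Fin.append s t = Fin.append s' t' ↔ s = s' ∧ t = t' := by
  constructor
  · intro h
    constructor
    · funext l
      have := congrFun h (Fin.castAdd n l)
      simpa using this
    · funext l
      have := congrFun h (Fin.natAdd m l)
      simpa using this
  · rintro ⟨rfl, rfl⟩
    rfl

lemma one_append (s s' : Fin m → ι) (t t' : Fin n → ι) :
    (1 : Matrix (Fin (m + n) → ι) (Fin (m + n) → ι) K) (Fin.append s t) (Fin.append s' t') =
      (1 : Matrix (Fin m → ι) (Fin m → ι) K) s s' * (1 : Matrix (Fin n → ι) (Fin n → ι) K) t t' := by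
  simp only [Matrix.one_apply, append_eq_iff]
  by_cases h : s = s' <;> by_cases h' : t = t' <;> simp [h, h']

lemma tder_append (x : Matrix ι ι K) (s s' : Fin m → ι) (t t' : Fin n → ι) :
    tder (m + n) x (Fin.append s t) (Fin.append s' t') =
      tder m x s s' * (1 : Matrix (Fin n → ι) (Fin n → ι) K) t t' +
        (1 : Matrix (Fin m → ι) (Fin m → ι) K) s s' * tder n x t t' := by
  simp only [tder, Matrix.of_apply]
  rw [Fin.sum_univ_add, Finset.sum_mul, Finset.mul_sum]
  congr 1
  · refine Finset.sum_congr rfl fun k _ => ?_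
    have e : (∀ l, l ≠ Fin.castAdd n k → Fin.append s t l = Fin.append s' t' l) ↔
        (∀ l, l ≠ k → s l = s' l) ∧ t = t' := by
      constructor
      · intro h
        refine ⟨fun l hl => ?_, funext fun l => ?_⟩
        · have := h (Fin.castAdd n l) (fun h' => hl (Fin.castAdd_injective m n h'))
          simpa using this
        · have := h (Fin.natAdd m l) (fun h' => by
            have := congrArg Fin.val h'
            simp at this
            omega)
          simpa using this
      · rintro ⟨h, rfl⟩ l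
        refine Fin.addCases (fun l => ?_) (fun l => ?_) l
        · intro hl
          simp only [Fin.append_left]
          exact h l fun h' => hl (by rw [h'])
        · intro _
          simp
    simp only [e, Fin.append_left, Matrix.one_apply]
    by_cases h : ∀ l, l ≠ k → s l = s' l <;> by_cases h' : t = t' <;> simp [h, h']
  · refine Finset.sum_congr rfl fun k _ => ?_
    have e : (∀ l, l ≠ Fin.natAdd m k → Fin.append s t l = Fin.append s' t' l) ↔
        s = s' ∧ (∀ l, l ≠ k → t l = t' l) := by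
      constructor
      · intro h
        refine ⟨funext fun l => ?_, fun l hl => ?_⟩
        · have := h (Fin.castAdd n l) (fun h' => by
            have := congrArg Fin.val h'
            simp at this
            omega)
          simpa using this
        · have := h (Fin.natAdd m l) (fun h' => hl (Fin.natAdd_injective n m h'))
          simpa using this
      · rintro ⟨rfl, h⟩ l
        refine Fin.addCases (fun l => ?_) (fun l => ?_) l
        · intro _
          simp
        · intro hl
          simp only [Fin.append_right]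
          exact h l fun h' => hl (by rw [h'])
    simp only [e, Fin.append_right, Matrix.one_apply]
    by_cases h : ∀ l, l ≠ k → t l = t' l <;> by_cases h' : s = s' <;> simp [h, h']

end append

/-- The tensor powers of the standard module. -/
abbrev V (φ : Λ → Matrix ι ι K) (n : ℕ) : Ob Λ K where
  ty := Fin n → ι
  fin := inferInstance
  dec := inferInstance
  op := fun x => tder n (φ x)

/-- The endomorphisms of the tensor powers. -/
abbrev E (φ : Λ → Matrix ι ι K) (n : ℕ) : Ob Λ K := tn (V φ n) (du (V φ n))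

/-- The trivial module. -/
abbrev U (Λ K : Type) [Field K] : Ob Λ K where
  ty := Unit
  fin := inferInstance
  dec := inferInstance
  op := fun _ => 0

variable (φ : Λ → Matrix ι ι K)

/-- The rank of the trace form. -/
noncomputable def a (n : ℕ) : ℕ := aY (V φ n)

lemma card_V (n : ℕ) : Fintype.card (V φ n).ty = Fintype.card ι ^ n := by
  change Fintype.card (Fin n → ι) = _
  rw [Fintype.card_fun, Fintype.card_fin]

/-- Two tensor factors can be moved to the other side. -/
lemma fY_move (P : Ob Λ K) (g : Matrix P.ty P.ty K) (m n : ℕ) :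
    fY (V φ n) (tn P (E φ m)) (g ⊗ₖ (1 : Matrix (E φ m).ty (E φ m).ty K)) =
      fY (V φ (m + n)) P g := by
  refine rho_eq (X := tn (tn (tn P (E φ m)) (V φ n)) (du (V φ n)))
    (Y := tn (tn P (V φ (m + n))) (du (V φ (m + n))))
    { toFun := fun q => ((q.1.1.1, Fin.append q.1.1.2.1 q.1.2), Fin.append q.1.1.2.2 q.2)
      invFun := fun q => (((q.1.1, ((fun i => q.1.2 (Fin.castAdd n i)),
        (fun i => q.2 (Fin.castAdd n i)))), (fun i => q.1.2 (Fin.natAdd m i))),
        (fun i => q.2 (Fin.natAdd m i)))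
      left_inv := fun q => by simp
      right_inv := fun q => by
        obtain ⟨⟨p, s⟩, t⟩ := q
        simp only [Prod.mk.injEq, true_and]
        exact ⟨Fin.append_castAdd_natAdd, Fin.append_castAdd_natAdd⟩ } ?_ ?_
  · rintro x ⟨⟨⟨p, ⟨s, t⟩⟩, y⟩, y'⟩ ⟨⟨⟨q, ⟨s', t'⟩⟩, z⟩, z'⟩
    change ((P.op x p q * (1 : Matrix ((Fin m → ι) × (Fin m → ι)) _ K) (s, t) (s', t') +
        (1 : Matrix P.ty P.ty K) p q * (tder m (φ x) s s' * (1 : Matrix (Fin m → ι) _ K) t t' +
          (1 : Matrix (Fin m → ι) _ K) s s' * -(tder m (φ x) t' t))) *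
        (1 : Matrix (Fin n → ι) _ K) y z +
        (1 : Matrix (P.ty × ((Fin m → ι) × (Fin m → ι))) _ K) (p, (s, t)) (q, (s', t')) *
        tder n (φ x) y z) * (1 : Matrix (Fin n → ι) _ K) y' z' +
        (1 : Matrix ((P.ty × ((Fin m → ι) × (Fin m → ι))) × (Fin n → ι)) _ K)
          ((p, (s, t)), y) ((q, (s', t')), z) * -(tder n (φ x) z' y') =
      (P.op x p q * (1 : Matrix (Fin (m + n) → ι) _ K) (Fin.append s y) (Fin.append s' z) +
        (1 : Matrix P.ty P.ty K) p q * tder (m + n) (φ x) (Fin.append s y) (Fin.append s' z)) *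
        (1 : Matrix (Fin (m + n) → ι) _ K) (Fin.append t y') (Fin.append t' z') +
        (1 : Matrix (P.ty × (Fin (m + n) → ι)) _ K) (p, Fin.append s y) (q, Fin.append s' z) *
        -(tder (m + n) (φ x) (Fin.append t' z') (Fin.append t y'))
    simp only [one_prod, one_append, tder_append]
    rw [one_symm t' t, one_symm z' y']
    ring
  · rintro ⟨⟨⟨p, ⟨s, t⟩⟩, y⟩, y'⟩ ⟨⟨⟨q, ⟨s', t'⟩⟩, z⟩, z'⟩
    change (g p q * (1 : Matrix ((Fin m → ι) × (Fin m → ι)) _ K) (s, t) (s', t') *
        (1 : Matrix (Fin n → ι) _ K) y z) * (1 : Matrix (Fin n → ι) _ K) y' z' =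
      (g p q * (1 : Matrix (Fin (m + n) → ι) _ K) (Fin.append s y) (Fin.append s' z)) *
        (1 : Matrix (Fin (m + n) → ι) _ K) (Fin.append t y') (Fin.append t' z')
    simp only [one_prod, one_append]
    ring

lemma fY_unit (Y : Ob Λ K) : fY Y (U Λ K) 1 = aY Y := by
  refine rho_eq (X := tn (tn (U Λ K) Y) (du Y)) (Y := tn Y (du Y))
    { toFun := fun q => (q.1.2, q.2)
      invFun := fun q => (((), q.1), q.2)
      left_inv := fun _ => rfl
      right_inv := fun _ => rfl } ?_ ?_
  · rintro x ⟨⟨p, y⟩, y'⟩ ⟨⟨q, z⟩, z'⟩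
    change ((0 : Matrix Unit Unit K) p q * (1 : Matrix Y.ty Y.ty K) y z +
        (1 : Matrix Unit Unit K) p q * Y.op x y z) * (1 : Matrix Y.ty Y.ty K) y' z' +
        (1 : Matrix (Unit × Y.ty) (Unit × Y.ty) K) (p, y) (q, z) * -(Y.op x z' y') =
      Y.op x y z * (1 : Matrix Y.ty Y.ty K) y' z' + (1 : Matrix Y.ty Y.ty K) y z * -(Y.op x z' y')
    rw [one_prod]
    simp
  · rintro ⟨⟨p, y⟩, y'⟩ ⟨⟨q, z⟩, z'⟩
    change ((1 : Matrix Unit Unit K) p q * (1 : Matrix Y.ty Y.ty K) y z) *
        (1 : Matrix Y.ty Y.ty K) y' z' =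
      (1 : Matrix (Y.ty × Y.ty) (Y.ty × Y.ty) K) (y, y') (z, z')
    rw [one_prod]
    simp

lemma fY_tn_unit (Y P : Ob Λ K) (g : Matrix P.ty P.ty K) :
    fY Y (tn (U Λ K) P) ((1 : Matrix Unit Unit K) ⊗ₖ g) = fY Y P g := by
  refine fY_iso (P := tn (U Λ K) P) (Q := P)
    { toFun := fun q => q.2
      invFun := fun q => ((), q)
      left_inv := fun _ => rfl
      right_inv := fun _ => rfl } ?_ ?_
  · rintro x ⟨p, y⟩ ⟨q, z⟩
    change (0 : Matrix Unit Unit K) p q * (1 : Matrix P.ty P.ty K) y z +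
        (1 : Matrix Unit Unit K) p q * P.op x y z = P.op x y z
    simp
  · rintro ⟨p, y⟩ ⟨q, z⟩
    change (1 : Matrix Unit Unit K) p q * g y z = g y z
    simp

lemma fY_E (m n : ℕ) : fY (V φ n) (E φ m) 1 = a φ (m + n) := by
  have h1 := fY_move φ (U Λ K) 1 m n
  rw [fY_tn_unit (V φ n) (E φ m) 1, fY_unit] at h1
  exact h1

/-- The sequence is log-convex. -/
lemma a_convex [CharZero K] (n : ℕ) : a φ (1 + n) ^ 2 ≤ a φ (1 + (1 + n)) * a φ n := by
  have h := csf (V φ n) (E φ 1) (g := 1) (fun x => by rw [one_mul, mul_one]) (mul_one _)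
  rw [fY_E, Matrix.transpose_one] at h
  have e : fY (V φ n) (tn (E φ 1) (du (E φ 1)))
      ((1 : Matrix (E φ 1).ty (E φ 1).ty K) ⊗ₖ (1 : Matrix (E φ 1).ty (E φ 1).ty K)) =
      fY (V φ n) (tn (E φ 1) (E φ 1))
      ((1 : Matrix (E φ 1).ty (E φ 1).ty K) ⊗ₖ (1 : Matrix (E φ 1).ty (E φ 1).ty K)) := by
    refine fY_iso (P := tn (E φ 1) (du (E φ 1))) (Q := tn (E φ 1) (E φ 1))
      { toFun := fun q => (q.1, (q.2.2, q.2.1))
        invFun := fun q => (q.1, (q.2.2, q.2.1))
        left_inv := fun _ => rfl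
        right_inv := fun _ => rfl } ?_ ?_
    · rintro x ⟨p, ⟨s, t⟩⟩ ⟨q, ⟨s', t'⟩⟩
      change (E φ 1).op x p q * (1 : Matrix ((Fin 1 → ι) × (Fin 1 → ι)) _ K) (s, t) (s', t') +
          (1 : Matrix (E φ 1).ty (E φ 1).ty K) p q *
          -(tder 1 (φ x) s' s * (1 : Matrix (Fin 1 → ι) _ K) t' t +
            (1 : Matrix (Fin 1 → ι) _ K) s' s * -(tder 1 (φ x) t t')) =
        (E φ 1).op x p q * (1 : Matrix ((Fin 1 → ι) × (Fin 1 → ι)) _ K) (t, s) (t', s') +
          (1 : Matrix (E φ 1).ty (E φ 1).ty K) p q *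
          (tder 1 (φ x) t t' * (1 : Matrix (Fin 1 → ι) _ K) s s' +
            (1 : Matrix (Fin 1 → ι) _ K) t t' * -(tder 1 (φ x) s' s))
      rw [one_prod s s' t t', one_prod t t' s s', one_symm t' t, one_symm s' s]
      ring
    · rintro ⟨p, ⟨s, t⟩⟩ ⟨q, ⟨s', t'⟩⟩
      change (1 : Matrix (E φ 1).ty (E φ 1).ty K) p q *
          (1 : Matrix ((Fin 1 → ι) × (Fin 1 → ι)) _ K) (s, t) (s', t') =
        (1 : Matrix (E φ 1).ty (E φ 1).ty K) p q *
          (1 : Matrix ((Fin 1 → ι) × (Fin 1 → ι)) _ K) (t, s) (t', s')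
      rw [one_prod s s' t t', one_prod t t' s s']
      ring
  rw [e, fY_move, fY_E] at h
  exact h

/-- The ratios are at most the square of the rank. -/
lemma a_le [CharZero K] (n : ℕ) : a φ (1 + n) ≤ Fintype.card ι ^ 2 * a φ n := by
  have h := fY_le (V φ n) (E φ 1) (g := 1) (fun x => by rw [one_mul, mul_one]) (mul_one _)
  rw [fY_E, rank_one'] at h
  refine h.trans (le_of_eq ?_)
  have : Fintype.card (E φ 1).ty = Fintype.card ι ^ 2 := by
    change Fintype.card ((Fin 1 → ι) × (Fin 1 → ι)) = _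
    rw [Fintype.card_prod, Fintype.card_fun, Fintype.card_fin]
    ring
  rw [this]
  rfl

end Pool.Agent.D0H78.LG
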