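import Pool.Agent.D0H78.LG.DRB
import Pool.Agent.D0H93.MT.Two

/-!
# Semisimple de Rham-Betti structures
-/

set_option autoImplicit false
set_option linter.unusedSectionVars false

open Matrix Module

namespace Pool.Agent.D0H78.LG

open Pool.Agent.D0H93.MT

variable {ι : Type} [Fintype ι] [DecidableEq ι]

/-- The complex span of a set of vectors with coordinates in `K`. -/
def cspan {K : Type} [Field K] [Algebra K ℂ] (U : Submodule K (ι → K)) :
    Submodule ℂ (ι → ℂ) :=
  Submodule.span ℂ ((fun (u : ι → K) i => algebraMap K ℂ (u i)) '' (U : Set (ι → K)))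

/-- The rational subspace `U` of the Betti realization corresponds to a subspace over `F` of the de
Rham realization. -/
def IsDRBSub (F : Subfield ℂ) (P : Matrix ι ι ℂ) (U : Submodule ℚ (ι → ℚ)) : Prop :=
  ∃ W : Submodule F (ι → F), ∀ v : ι → ℂ, v ∈ cspan W ↔ P *ᵥ v ∈ cspan U

/-- Every de Rham-Betti subspace has a de Rham-Betti complement. -/
def SemisimpleDRB (F : Subfield ℂ) (P : Matrix ι ι ℂ) : Prop :=
  ∀ U : Submodule ℚ (ι → ℚ), IsDRBSub F P U →
    ∃ U' : Submodule ℚ (ι → ℚ), IsDRBSub F P U' ∧ IsCompl U U'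

variable {F : Subfield ℂ} {P : Matrix ι ι ℂ}

/-- Apply a derivation to the coordinates. -/
noncomputable def dv (D : Derivation F ℂ ℂ) (v : ι → ℂ) : ι → ℂ := fun i => D (v i)

lemma dv_mulVec (D : Derivation F ℂ ℂ) (M : Matrix ι ι ℂ) (v : ι → ℂ) :
    dv D (M *ᵥ v) = M.map D *ᵥ v + M *ᵥ dv D v := by
  funext i
  simp only [dv, Matrix.mulVec, dotProduct, map_sum, Pi.add_apply, Matrix.map_apply,
    Derivation.leibniz, smul_eq_mul, Finset.sum_add_distrib]
  rw [add_comm]
  congr 1
  exact Finset.sum_congr rfl fun _ _ => mul_comm _ _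

/-- Descent: a subspace stable under the derivations over `F` is spanned by its `F`-vectors. -/
lemma descent [IsAlgClosed F] (W : Submodule ℂ (ι → ℂ))
    (hW : ∀ D : Derivation F ℂ ℂ, ∀ v ∈ W, dv D v ∈ W) :
    ∃ W₀ : Submodule F (ι → F), cspan W₀ = W := by
  classical
  -- coordinate functionals
  let ev : ι → Dual ℂ W := fun i => (LinearMap.proj i : (ι → ℂ) →ₗ[ℂ] ℂ).comp W.subtype
  have hsp : Submodule.span ℂ (Set.range ev) = ⊤ := by
    have h1 : (Submodule.span ℂ (Set.range ev)).dualCoannihilator = ⊥ := by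
      rw [eq_bot_iff]
      intro w hw
      rw [Submodule.mem_bot]
      rw [Submodule.mem_dualCoannihilator] at hw
      apply Subtype.ext
      funext i
      exact hw (ev i) (Submodule.subset_span ⟨i, rfl⟩)
    rw [← Subspace.dualCoannihilator_dualAnnihilator_eq (W := Submodule.span ℂ (Set.range ev)), h1,
      Submodule.dualAnnihilator_bot]
  obtain ⟨J, hJ, hspan, hli⟩ := exists_linearIndependent ℂ (Set.range ev)
  rw [hsp] at hspan
  let b : Basis J ℂ (Dual ℂ W) := Basis.mk hli (by
    rw [Subtype.range_coe_subtype]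
    rw [Set.ofPred_mem_eq, hspan])
  have hfin : Finite J := Set.Finite.to_subtype ((Set.finite_range ev).subset hJ)
  have : Fintype J := Fintype.ofFinite J
  -- the dual basis of `W`
  let d : Basis J ℂ (Dual ℂ (Dual ℂ W)) := b.dualBasis
  let e : W ≃ₗ[ℂ] Dual ℂ (Dual ℂ W) := evalEquiv ℂ W
  let w : Basis J ℂ W := d.map e.symm
  have hw : ∀ j k : J, (j : Dual ℂ W) (w k) = if j = k then 1 else 0 := by
    intro j k
    have h1 : e (w k) = d k := by
      change e (e.symm (d k)) = d k
      rw [LinearEquiv.apply_symm_apply]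
    have h2 : (j : Dual ℂ W) (w k) = e (w k) (j : Dual ℂ W) := rfl
    have h3 : (j : Dual ℂ W) = b j := by
      rw [Basis.mk_apply]
    rw [h2, h1, h3, Basis.dualBasis_apply_self]
  -- the dual basis consists of vectors over `F`
  have hwF : ∀ k i, ((w k : ι → ℂ) i) ∈ F := by
    intro k i
    obtain ⟨a, ha⟩ := Pool.Agent.W516.DR.mem_of_derivation (K := F) (L := ℂ)
      (x := (w k : ι → ℂ) i) fun D => by
        have h1 : (⟨dv D (w k : ι → ℂ), hW D _ (w k).2⟩ : W) = 0 := by
          refine w.ext_elem fun j => ?_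
          have h4 : ∀ v : W, w.repr v j = (j : Dual ℂ W) v := by
            intro v
            conv_rhs => rw [← w.sum_repr v, map_sum]
            rw [Finset.sum_eq_single j]
            · rw [map_smul, hw, if_pos rfl, smul_eq_mul, mul_one]
            · intro l _ hl
              rw [map_smul, hw, if_neg hl.symm, smul_zero]
            · intro h; exact absurd (Finset.mem_univ _) h
          rw [h4, h4, map_zero]
          obtain ⟨i', hi'⟩ := hJ j.2
          rw [← hi']
          change D ((w k : ι → ℂ) i') = 0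
          have h5 : (w k : ι → ℂ) i' = if j = k then 1 else 0 := by
            have := hw j k
            rw [← hi'] at this
            exact this
          rw [h5]
          split_ifs
          · exact D.map_one_eq_zero
          · exact map_zero _
        exact congrFun (congrArg Subtype.val h1) i
    rw [← ha]
    exact a.2
  let w' : J → (ι → F) := fun k i => ⟨(w k : ι → ℂ) i, hwF k i⟩
  refine ⟨Submodule.span F (Set.range w'), le_antisymm ?_ ?_⟩
  · refine Submodule.span_le.2 ?_
    rintro _ ⟨u, hu, rfl⟩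
    have h1 : ∀ u ∈ Submodule.span F (Set.range w'), (fun i => algebraMap F ℂ (u i)) ∈ W := by
      intro u hu
      induction hu using Submodule.span_induction with
      | mem u hu => obtain ⟨k, rfl⟩ := hu; exact (w k).2
      | zero =>
        have : (fun i => algebraMap F ℂ ((0 : ι → F) i)) = 0 := by funext i; simp
        rw [this]; exact W.zero_mem
      | add u v _ _ hu hv =>
        have : (fun i => algebraMap F ℂ ((u + v) i)) = (fun i => algebraMap F ℂ (u i)) +
          fun i => algebraMap F ℂ (v i) := by funext i; simp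
        rw [this]; exact W.add_mem hu hv
      | smul c u _ hu =>
        have : (fun i => algebraMap F ℂ ((c • u) i)) = (c : ℂ) • fun i => algebraMap F ℂ (u i) := by
          funext i
          simp only [Pi.smul_apply, smul_eq_mul, map_mul]
          rfl
        rw [this]; exact W.smul_mem _ hu
    exact h1 u hu
  · intro v hv
    have h1 : v = ∑ k, w.repr ⟨v, hv⟩ k • (w k : ι → ℂ) := by
      have := congrArg Subtype.val (w.sum_repr ⟨v, hv⟩)
      exact this.symm.trans ((map_sum W.subtype _ _).trans (Finset.sum_congr rfl fun k _ => rfl))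
    rw [h1]
    refine Submodule.sum_mem _ fun k _ => Submodule.smul_mem _ _ (Submodule.subset_span ?_)
    exact ⟨w' k, Submodule.subset_span ⟨k, rfl⟩, rfl⟩

/-- A complex matrix which stabilizes. -/
lemma cspan_stable {U : Submodule ℚ (ι → ℚ)} {N : Submodule ℚ (Matrix ι ι ℚ)}
    (hU : ∀ x ∈ N, ∀ u ∈ U, x *ᵥ u ∈ U) {y : Matrix ι ι ℂ}
    (hy : y ∈ Submodule.span ℂ ((fun y : Matrix ι ι ℚ => bc ℂ y) '' (N : Set (Matrix ι ι ℚ)))) :
    ∀ v ∈ cspan U, y *ᵥ v ∈ cspan U := by
  induction hy using Submodule.span_induction with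
  | mem y hy =>
    obtain ⟨y₀, hy₀, rfl⟩ := hy
    intro v hv
    induction hv using Submodule.span_induction with
    | mem v hv =>
      obtain ⟨u, hu, rfl⟩ := hv
      refine Submodule.subset_span ⟨y₀ *ᵥ u, hU _ hy₀ _ hu, ?_⟩
      funext i
      simp [Matrix.mulVec, dotProduct]
    | zero => rw [Matrix.mulVec_zero]; exact zero_mem _
    | add a b _ _ ha hb => rw [Matrix.mulVec_add]; exact add_mem ha hb
    | smul a b _ hb => rw [Matrix.mulVec_smul]; exact Submodule.smul_mem _ _ hb
  | zero => intro v _; rw [Matrix.zero_mulVec]; exact zero_mem _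
  | add a b _ _ ha hb => intro v hv; rw [Matrix.add_mulVec]; exact add_mem (ha v hv) (hb v hv)
  | smul a b _ hb => intro v hv; rw [Matrix.smul_mulVec]; exact Submodule.smul_mem _ _ (hb v hv)

lemma log_mem (D : Derivation F ℂ ℂ) (hP : IsUnit P.det) :
    P.map D * P⁻¹ ∈ Submodule.span ℂ ((fun y : Matrix ι ι ℚ => bc ℂ y) ''
      (ann (IsDRB F P) : Set (Matrix ι ι ℚ))) := by
  refine mem_span_of_co (L := ℂ) _ (mem_ann_ext.1 ?_)
  rintro m _ ⟨c₀, hc₀, rfl⟩
  exact kills_of_isDRB D hP hc₀

lemma dv_cspan (D : Derivation F ℂ ℂ) {U : Submodule ℚ (ι → ℚ)} {v : ι → ℂ} (hv : v ∈ cspan U) :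
    dv D v ∈ cspan U := by
  induction hv using Submodule.span_induction with
  | mem v hv =>
    obtain ⟨u, hu, rfl⟩ := hv
    have : dv D (fun i => algebraMap ℚ ℂ (u i)) = 0 := by
      funext i
      have h1 : (algebraMap ℚ ℂ (u i)) = algebraMap F ℂ (algebraMap ℚ F (u i)) := by simp
      change D (algebraMap ℚ ℂ (u i)) = 0
      rw [h1, D.map_algebraMap]
    rw [this]
    exact zero_mem _
  | zero =>
    have : dv D (0 : ι → ℂ) = 0 := by funext i; simp [dv]
    rw [this]; exact zero_mem _
  | add a b _ _ ha hb =>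
    have : dv D (a + b) = dv D a + dv D b := by funext i; simp [dv]
    rw [this]; exact add_mem ha hb
  | smul a b hb' hb =>
    have : dv D (a • b) = a • dv D b + D a • b := by
      funext i
      simp only [dv, Pi.smul_apply, smul_eq_mul, Derivation.leibniz, Pi.add_apply]
      ring
    rw [this]
    exact add_mem (Submodule.smul_mem _ _ hb) (Submodule.smul_mem _ _ hb')

/-- A subspace stable under the annihilator of the de Rham-Betti classes is a de Rham-Betti
subspace. -/
theorem isDRBSub_of_stable [IsAlgClosed F] (hP : IsUnit P.det) {U : Submodule ℚ (ι → ℚ)}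
    (hU : ∀ x ∈ ann (IsDRB F P), ∀ u ∈ U, x *ᵥ u ∈ U) : IsDRBSub F P U := by
  let W : Submodule ℂ (ι → ℂ) := (cspan U).comap P.toLin'
  have hW : ∀ v, v ∈ W ↔ P *ᵥ v ∈ cspan U := fun v => by
    rw [Submodule.mem_comap, Matrix.toLin'_apply]
  obtain ⟨W₀, hW₀⟩ := descent (F := F) W fun D v hv => by
    rw [hW] at hv ⊢
    have h1 := dv_cspan D hv
    rw [dv_mulVec] at h1
    have h2 : P.map D *ᵥ v = (P.map D * P⁻¹) *ᵥ (P *ᵥ v) := by
      rw [Matrix.mulVec_mulVec, mul_assoc, Matrix.nonsing_inv_mul _ hP, mul_one]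
    have h3 := cspan_stable hU (log_mem D hP) _ hv
    rw [h2] at h1
    have := sub_mem h1 h3
    rwa [add_sub_cancel_left] at this
  exact ⟨W₀, fun v => by rw [hW₀]; exact hW v⟩

/-- **A semisimple de Rham-Betti structure is semisimple over the annihilator of the de Rham-Betti
classes.** -/
theorem semisimple_of [IsAlgClosed F] (hP : IsUnit P.det) (hss : SemisimpleDRB F P) :
    Semisimple (ann (IsDRB F P)) := by
  intro U hU
  have hU1 := isDRBSub_of_stable hP hU
  obtain ⟨U', hU'1, hc⟩ := hss U hU1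
  refine ⟨U', ?_, hc⟩
  -- the projector
  let p : (ι → ℚ) →ₗ[ℚ] (ι → ℚ) := U.subtype ∘ₗ U.projectionOnto U' hc
  let e : Matrix ι ι ℚ := LinearMap.toMatrix' p
  have he : ∀ v, e *ᵥ v = p v := fun v => by
    rw [← Matrix.toLin'_apply, Matrix.toLin'_toMatrix']
  have he1 : ∀ u ∈ U, e *ᵥ u = u := fun u hu => by
    rw [he]
    change ((U.projectionOnto U' hc u : U) : ι → ℚ) = u
    exact congrArg Subtype.val (Submodule.projectionOnto_apply_left hc ⟨u, hu⟩)
  have he2 : ∀ u ∈ U', e *ᵥ u = 0 := fun u hu => by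
    rw [he]
    change ((U.projectionOnto U' hc u : U) : ι → ℚ) = 0
    rw [Submodule.projectionOnto_apply_eq_zero_iff hc |>.2 hu]
    rfl
  obtain ⟨W, hW⟩ := hU1
  obtain ⟨W', hW'⟩ := hU'1
  set M : Matrix ι ι ℂ := P⁻¹ * bc ℂ e * P with hM
  -- the complexifications span
  have htop : ∀ v : ι → ℂ, v ∈ cspan U ⊔ cspan U' := by
    intro v
    have h1 : v = ∑ i, v i • (Pi.single i (1 : ℂ) : ι → ℂ) := by
      funext j
      rw [Finset.sum_apply, Finset.sum_eq_single j]
      · simp
      · intro i _ hi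
        simp [hi.symm]
      · intro h; exact absurd (Finset.mem_univ _) h
    rw [h1]
    refine Submodule.sum_mem _ fun i _ => Submodule.smul_mem _ _ ?_
    have h2 : (Pi.single i (1 : ℚ) : ι → ℚ) ∈ U ⊔ U' := by rw [hc.sup_eq_top]; trivial
    obtain ⟨a, ha, b, hb, hab⟩ := Submodule.mem_sup.1 h2
    refine Submodule.mem_sup.2 ⟨fun j => algebraMap ℚ ℂ (a j), Submodule.subset_span ⟨a, ha, rfl⟩,
      fun j => algebraMap ℚ ℂ (b j), Submodule.subset_span ⟨b, hb, rfl⟩, ?_⟩
    funext j
    have h3 := congrFun hab j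
    rw [Pi.add_apply] at h3
    rw [Pi.add_apply, ← map_add, h3]
    by_cases hj : j = i
    · subst hj; simp
    · simp [hj]
  have hbe1 : ∀ v ∈ cspan U, bc ℂ e *ᵥ v = v := by
    intro v hv
    induction hv using Submodule.span_induction with
    | mem v hv =>
      obtain ⟨u, hu, rfl⟩ := hv
      funext i
      have h1 := congrFun (he1 u hu) i
      change (bc ℂ e *ᵥ fun i => algebraMap ℚ ℂ (u i)) i = algebraMap ℚ ℂ (u i)
      rw [← h1]
      simp only [Matrix.mulVec, dotProduct, map_sum, map_mul]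
      rfl
    | zero => rw [Matrix.mulVec_zero]
    | add a b _ _ ha hb => rw [Matrix.mulVec_add, ha, hb]
    | smul a b _ hb => rw [Matrix.mulVec_smul, hb]
  have hbe2 : ∀ v ∈ cspan U', bc ℂ e *ᵥ v = 0 := by
    intro v hv
    induction hv using Submodule.span_induction with
    | mem v hv =>
      obtain ⟨u, hu, rfl⟩ := hv
      funext i
      have h1 := congrFun (he2 u hu) i
      simp only [Matrix.mulVec, dotProduct, Pi.zero_apply, Matrix.map_apply] at h1 ⊢
      rw [← map_zero (algebraMap ℚ ℂ), ← h1, map_sum]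
      exact Finset.sum_congr rfl fun j _ => (map_mul _ _ _).symm
    | zero => rw [Matrix.mulVec_zero]
    | add a b _ _ ha hb => rw [Matrix.mulVec_add, ha, hb, add_zero]
    | smul a b _ hb => rw [Matrix.mulVec_smul, hb, smul_zero]
  have hM1 : ∀ v ∈ cspan W, M *ᵥ v = v := fun v hv => by
    rw [hM, ← Matrix.mulVec_mulVec, ← Matrix.mulVec_mulVec, hbe1 _ ((hW v).1 hv),
      Matrix.mulVec_mulVec, Matrix.nonsing_inv_mul _ hP, Matrix.one_mulVec]
  have hM2 : ∀ v ∈ cspan W', M *ᵥ v = 0 := fun v hv => by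
    rw [hM, ← Matrix.mulVec_mulVec, ← Matrix.mulVec_mulVec, hbe2 _ ((hW' v).1 hv),
      Matrix.mulVec_zero]
  have hdF : ∀ (D : Derivation F ℂ ℂ) (u : ι → F), dv D (fun i => algebraMap F ℂ (u i)) = 0 :=
    fun D u => by funext i; exact D.map_algebraMap _
  have hDM : ∀ D : Derivation F ℂ ℂ, M.map D = 0 := by
    intro D
    have h1 : ∀ v ∈ cspan W, M.map D *ᵥ v = 0 := by
      intro v hv
      induction hv using Submodule.span_induction with
      | mem v hv =>
        obtain ⟨u, hu, rfl⟩ := hv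
        have h2 := dv_mulVec D M fun i => algebraMap F ℂ (u i)
        rw [hdF, Matrix.mulVec_zero, add_zero, hM1 _ (Submodule.subset_span ⟨u, hu, rfl⟩),
          hdF] at h2
        exact h2.symm
      | zero => rw [Matrix.mulVec_zero]
      | add a b _ _ ha hb => rw [Matrix.mulVec_add, ha, hb, add_zero]
      | smul a b _ hb => rw [Matrix.mulVec_smul, hb, smul_zero]
    have h2 : ∀ v ∈ cspan W', M.map D *ᵥ v = 0 := by
      intro v hv
      induction hv using Submodule.span_induction with
      | mem v hv =>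
        obtain ⟨u, hu, rfl⟩ := hv
        have h2 := dv_mulVec D M fun i => algebraMap F ℂ (u i)
        have h3 : dv D (0 : ι → ℂ) = 0 := by funext i; simp [dv]
        rw [hdF, Matrix.mulVec_zero, add_zero, hM2 _ (Submodule.subset_span ⟨u, hu, rfl⟩),
          h3] at h2
        exact h2.symm
      | zero => rw [Matrix.mulVec_zero]
      | add a b _ _ ha hb => rw [Matrix.mulVec_add, ha, hb, add_zero]
      | smul a b _ hb => rw [Matrix.mulVec_smul, hb, smul_zero]
    apply Matrix.toLin'.injective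
    apply LinearMap.ext
    intro v
    rw [Matrix.toLin'_apply, map_zero, LinearMap.zero_apply]
    obtain ⟨a, ha, b, hb, hab⟩ := Submodule.mem_sup.1 (htop (P *ᵥ v))
    have h3 : v = P⁻¹ *ᵥ a + P⁻¹ *ᵥ b := by
      rw [← Matrix.mulVec_add, hab, Matrix.mulVec_mulVec, Matrix.nonsing_inv_mul _ hP,
        Matrix.one_mulVec]
    have h4 : P⁻¹ *ᵥ a ∈ cspan W := by
      rw [hW, Matrix.mulVec_mulVec, Matrix.mul_nonsing_inv _ hP, Matrix.one_mulVec]
      exact ha
    have h5 : P⁻¹ *ᵥ b ∈ cspan W' := by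
      rw [hW', Matrix.mulVec_mulVec, Matrix.mul_nonsing_inv _ hP, Matrix.one_mulVec]
      exact hb
    rw [h3, Matrix.mulVec_add, h1 _ h4, h2 _ h5, add_zero]
  have hMF : ∀ i j, M i j ∈ F := by
    intro i j
    obtain ⟨a, ha⟩ := Pool.Agent.W516.DR.mem_of_derivation (K := F) (L := ℂ)
      (x := M i j) fun D => congrFun (congrFun (hDM D) i) j
    rw [← ha]
    exact a.2
  have hDR : IsDRB F P 1 (one' e) := by
    have h1 : ∀ g : Matrix ι ι ℂ, tpow 1 g = one' g := by
      intro g
      ext I J
      simp [tpow, one']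
    intro I J
    have h2 : bc ℂ (one' e) = one' (bc ℂ e) := rfl
    rw [h1, h1, h2, one'_mul, one'_mul]
    exact hMF _ _
  intro x hx u hu
  have h1 : x * e = e * x := kills_one'.1 (hx 1 _ hDR)
  have h2 : e *ᵥ (x *ᵥ u) = 0 := by
    rw [Matrix.mulVec_mulVec, ← h1, ← Matrix.mulVec_mulVec, he2 u hu, Matrix.mulVec_zero]
  rw [he] at h2
  have h3 : U.projectionOnto U' hc (x *ᵥ u) = 0 := Subtype.ext h2
  exact (Submodule.projectionOnto_apply_eq_zero_iff hc).1 h3

end Pool.Agent.D0H78.LG
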