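import Pool.Agent.D0H78.LG.Gap
import Pool.Agent.D0H93.MT.Ann

/-!
# The gap for a subspace of a space of matrices
-/

set_option autoImplicit false
set_option linter.unusedSectionVars false

open Matrix Module
open scoped Kronecker

namespace Pool.Agent.D0H78.LG

open Pool.Agent.D0H93.MT

variable {ι : Type} [Fintype ι] [DecidableEq ι] {K : Type} [Field K]

/-- The endomorphisms of the `n`-th tensor power which are killed by all elements of `N`. -/
def kil (N : Submodule K (Matrix ι ι K)) (n : ℕ) :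
    Submodule K (Matrix (Fin n → ι) (Fin n → ι) K) where
  carrier := {c | ∀ x ∈ N, Kills x c}
  zero_mem' := fun x _ => by unfold Kills; rw [mul_zero, zero_mul]
  add_mem' := fun {a b} ha hb x hx => by
    have h1 := ha x hx
    have h2 := hb x hx
    unfold Kills at *
    rw [mul_add, add_mul, h1, h2]
  smul_mem' := fun r a ha x hx => by
    have h1 := ha x hx
    unfold Kills at *
    rw [mul_smul_comm, smul_mul_assoc, h1]

lemma mem_kil {N : Submodule K (Matrix ι ι K)} {n : ℕ} {c : Matrix (Fin n → ι) (Fin n → ι) K} :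
    c ∈ kil N n ↔ ∀ x ∈ N, Kills x c := Iff.rfl

lemma kil_anti {H N : Submodule K (Matrix ι ι K)} (h : H ≤ N) (n : ℕ) : kil N n ≤ kil H n :=
  fun _ hc x hx => hc x (h hx)

/-- The trace form is nondegenerate on the endomorphisms killed by `N`. -/
def NdS (N : Submodule K (Matrix ι ι K)) (n : ℕ) : Prop :=
  ∀ c ∈ kil N n, (∀ d ∈ kil N n, (c * d).trace = 0) → c = 0

/-- The operators of `N`. -/
abbrev φN (N : Submodule K (Matrix ι ι K)) : N → Matrix ι ι K := fun x => x.1

lemma cm_eq (N : Submodule K (Matrix ι ι K)) (n : ℕ) : cm (φN N) n = kil N n := by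
  ext c
  rw [mem_cm, mem_kil]
  exact ⟨fun h x hx => h ⟨x, hx⟩, fun h x => h x.1 x.2⟩

lemma op_mulVec {Λ : Type} (X Y : Ob Λ K) (x : Λ) (M : Matrix X.ty Y.ty K) :
    (tn X (du Y)).op x *ᵥ (fun p : X.ty × Y.ty => M p.1 p.2) = 0 ↔
      X.op x * M = M * Y.op x := by
  let X' : Ob Unit K := { ty := X.ty, fin := X.fin, dec := X.dec, op := fun _ => X.op x }
  let Y' : Ob Unit K := { ty := Y.ty, fin := Y.fin, dec := Y.dec, op := fun _ => Y.op x }
  have h := inv_tn_du (X := X') (Y := Y') (v := fun p : X.ty × Y.ty => M p.1 p.2)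
  rw [mem_Inv] at h
  constructor
  · intro h1
    exact h.1 (fun _ => h1) ()
  · intro h1
    exact h.2 (fun _ => h1) ()

lemma op_E {Λ : Type} (φ : Λ → Matrix ι ι K) (n : ℕ) (x : Λ)
    (c : Matrix (Fin n → ι) (Fin n → ι) K) :
    (E φ n).op x *ᵥ (fun p : (Fin n → ι) × (Fin n → ι) => c p.1 p.2) = 0 ↔ Kills (φ x) c :=
  op_mulVec (V φ n) (V φ n) x c

/-- The endomorphisms killed by a part of the operators. -/
def toTI (H N : Submodule K (Matrix ι ι K)) (hle : H ≤ N) (n : ℕ) :
    kil H n ≃ₗ[K] TI (E (φN N) n) {x | x.1 ∈ H} where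
  toFun c := ⟨fun p => (c : Matrix (Fin n → ι) (Fin n → ι) K) p.1 p.2,
    fun x hx => (op_E (φN N) n x c.1).2 (c.2 x.1 hx)⟩
  invFun v := ⟨Matrix.of fun a b => (v : (Fin n → ι) × (Fin n → ι) → K) (a, b),
    fun x hx => (op_E (φN N) n ⟨x, hle hx⟩ _).1 (v.2 ⟨x, hle hx⟩ hx)⟩
  left_inv _ := rfl
  right_inv _ := rfl
  map_add' _ _ := rfl
  map_smul' _ _ := rfl

variable [CharZero K] [Nonempty ι]

/-- **The gap for subspaces.** If `H ≤ N` and an endomorphism of the `q`-th tensor power is killed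
by `H` and not by `N`, then for all `n` from an explicit bound on, the space of the endomorphisms
of the `n`-th tensor power killed by `H` has more than `C` times the dimension of the space of
those killed by `N`. -/
theorem gap_sub {H N : Submodule K (Matrix ι ι K)} (hle : H ≤ N) (hnd : ∀ n, NdS N n)
    {q C n : ℕ} (hn : bound (Fintype.card ι ^ 2) (C * q) C ≤ n) (hC : 1 ≤ C)
    {c : Matrix (Fin q → ι) (Fin q → ι) K} (hc : c ∈ kil H q) (hc' : c ∉ kil N q) :
    C * finrank K (kil N n) < finrank K (kil H n) := by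
  have h1 : ∃ x : N, ¬ Kills x.1 c := by
    by_contra h
    push Not at h
    exact hc' fun x hx => h ⟨x, hx⟩
  obtain ⟨x, hx⟩ := h1
  have h2 : ∀ n, Nd (φN N) n := by
    intro n c hc hd
    rw [cm_eq] at hc
    exact hnd n c hc fun d hd' => hd d (by rw [cm_eq]; exact hd')
  have h3 := gap (φN N) h2 hn hC (S := {x | x.1 ∈ H})
    (v := fun p => c p.1 p.2) (fun y hy => (op_E (φN N) q y c).2 (hc y.1 hy)) (x := x)
    (fun h => hx ((op_E (φN N) q x c).1 h))
  rw [cm_eq, ← (toTI H N hle n).finrank_eq] at h3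
  exact h3

/-- **One inequality decides.** -/
theorem decide_sub {H N : Submodule K (Matrix ι ι K)} (hle : H ≤ N) (hnd : ∀ n, NdS N n)
    {q C n : ℕ} (hn : bound (Fintype.card ι ^ 2) (C * q) C ≤ n) (hC : 1 ≤ C)
    (h : finrank K (kil H n) ≤ C * finrank K (kil N n)) : kil H q = kil N q := by
  refine le_antisymm (fun c hc => ?_) (kil_anti hle q)
  by_contra hc'
  exact absurd (gap_sub hle hnd hn hC hc hc') (not_lt.2 h)

end Pool.Agent.D0H78.LG
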